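import Mathlib

/-!
# Group algebras of finite groups: coefficients, centre, maps (MP_694c72_al)
-/

set_option autoImplicit false

namespace H91.Nav

open MonoidAlgebra

section Coeff

variable {R : Type*} [CommRing R] {G : Type*} [Group G] [Fintype G]

theorem coeff_mul_l (x y : MonoidAlgebra R G) (g : G) :
    (x * y).coeff g = ∑ h : G, x.coeff h * y.coeff (h⁻¹ * g) := by
  rw [coeff_mul_apply_left, Finsupp.sum_fintype]
  intro i
  simp

theorem coeff_mul_r (x y : MonoidAlgebra R G) (g : G) :
    (x * y).coeff g = ∑ h : G, x.coeff (g * h⁻¹) * y.coeff h := by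
  rw [coeff_mul_apply_right, Finsupp.sum_fintype]
  intro i
  simp

/-- conjugation of an element of the group algebra -/
noncomputable def cj (h : G) (x : MonoidAlgebra R G) : MonoidAlgebra R G :=
  single h 1 * x * single h⁻¹ 1

theorem coeff_cj (h : G) (x : MonoidAlgebra R G) (g : G) :
    (cj h x).coeff g = x.coeff (h⁻¹ * g * h) := by
  rw [cj, coeff_mul_single_apply, coeff_single_mul_apply]
  simp [mul_assoc]

theorem single_mul_single_inv (h : G) :
    (single h⁻¹ 1 * single h 1 : MonoidAlgebra R G) = 1 := by
  rw [single_mul_single, inv_mul_cancel, one_mul, one_def]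

theorem single_mul_single_inv' (h : G) :
    (single h 1 * single h⁻¹ 1 : MonoidAlgebra R G) = 1 := by
  rw [single_mul_single, mul_inv_cancel, one_mul, one_def]

theorem cj_mul (h : G) (x y : MonoidAlgebra R G) : cj h (x * y) = cj h x * cj h y := by
  unfold cj
  calc single h 1 * (x * y) * single h⁻¹ 1
      = single h 1 * x * 1 * y * single h⁻¹ 1 := by simp only [mul_one, mul_assoc]
    _ = single h 1 * x * (single h⁻¹ 1 * single h 1) * y * single h⁻¹ 1 := by
        rw [single_mul_single_inv]
    _ = _ := by simp only [mul_assoc]

/-- invariance under conjugation by `h` means commuting with `h` -/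
theorem cj_eq_iff (h : G) (x : MonoidAlgebra R G) :
    cj h x = x ↔ single h 1 * x = x * single h 1 := by
  unfold cj
  constructor
  · intro e
    calc single h 1 * x = single h 1 * x * (single h⁻¹ 1 * single h 1) := by
          rw [single_mul_single_inv, mul_one]
      _ = (single h 1 * x * single h⁻¹ 1) * single h 1 := by simp only [mul_assoc]
      _ = _ := by rw [e]
  · intro e
    rw [e, mul_assoc, single_mul_single_inv', mul_one]

theorem ext_coeff {x y : MonoidAlgebra R G} (h : ∀ g, x.coeff g = y.coeff g) : x = y := by
  apply coeff_injective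
  ext g
  exact h g

theorem mem_center_iff {z : MonoidAlgebra R G} :
    z ∈ Subalgebra.center R (MonoidAlgebra R G) ↔
      ∀ g h : G, z.coeff (g * h * g⁻¹) = z.coeff h := by
  rw [Subalgebra.mem_center_iff]
  constructor
  · intro hz g h
    have h1 := (cj_eq_iff g⁻¹ z).2 (hz (single g⁻¹ 1))
    have h2 := coeff_cj g⁻¹ z h
    rw [h1] at h2
    rw [h2]
    simp
  · intro hz b
    apply ext_coeff
    intro g
    rw [coeff_mul_l, coeff_mul_r]
    refine Finset.sum_bijective (fun h => h) Function.bijective_id (by simp) ?_
    intro h _
    have h1 := hz h (h⁻¹ * g)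
    rw [mul_inv_cancel_left] at h1
    rw [← h1, mul_comm]

/-- centrality with respect to a subgroup -/
theorem comm_single_iff {z : MonoidAlgebra R G} {h : G} :
    single h 1 * z = z * single h 1 ↔ ∀ g : G, z.coeff (h * g * h⁻¹) = z.coeff g := by
  rw [← cj_eq_iff]
  constructor
  · intro e g
    have h2 := coeff_cj h z (h * g * h⁻¹)
    rw [e] at h2
    rw [h2]
    congr 1
    group
  · intro e
    apply ext_coeff
    intro g
    rw [coeff_cj, ← e (h⁻¹ * g * h)]
    congr 1
    group

end Coeff

section Phi

variable {R : Type*} [CommRing R] {G Γ : Type*} [Group G] [Fintype G] [Group Γ] [Fintype Γ]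
  [DecidableEq Γ]

theorem coeff_phi (π : G →* Γ) (x : MonoidAlgebra R G) (γ : Γ) :
    (mapDomainRingHom R π x).coeff γ = ∑ g : G, if π g = γ then x.coeff g else 0 := by
  induction x using MonoidAlgebra.induction_linear with
  | zero => simp
  | add f g hf hg =>
    rw [map_add, coeff_add, Finsupp.add_apply, hf, hg, ← Finset.sum_add_distrib]
    refine Finset.sum_congr rfl fun a _ => ?_
    split_ifs
    · simp
    · simp
  | single m r =>
    classical
    rw [mapDomainRingHom_apply, mapDomain_single, coeff_single, coeff_single,
      Finsupp.single_apply]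
    have : ∀ g : G, (if π g = γ then (Finsupp.single m r : G →₀ R) g else 0) =
        if g = m then (if π m = γ then r else 0) else 0 := by
      intro g
      by_cases h : g = m
      · subst h; simp
      · rw [if_neg h, Finsupp.single_apply, if_neg (Ne.symm h), ite_self]
    rw [Finset.sum_congr rfl (fun g _ => this g)]
    simp

end Phi

end H91.Nav
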