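import Pool.Agent.H91.Nav.Slice

/-!
# Lifting of central idempotents supported on the centraliser of a normal abelian `p`-subgroup
-/

set_option autoImplicit false
set_option linter.unusedSectionVars false

namespace H91.Nav

open MonoidAlgebra

section NL

variable {K : Type*} [Field K] {G : Type*} [Group G] [Fintype G] {V : Type*} [CommGroup V]
  [Fintype V] (i : V →* G) {Γ : Type*} [Group Γ] [Fintype Γ] (π : G →* Γ)

/-- A `K[V]`-linear endomorphism with image in the kernel of `K[G] → K[Γ]` raises the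
filtration. -/
theorem filt_step (hi : Function.Injective i) (hker : ∀ g, π g = 1 ↔ ∃ v, i v = g)
    (hπ : Function.Surjective π) (D : MonoidAlgebra K G →ₗ[K] MonoidAlgebra K G)
    (hD : ∀ (a : MonoidAlgebra K V) (y : MonoidAlgebra K G), D (io i a * y) = io i a * D y)
    (hD0 : ∀ y, mapDomainRingHom K π (D y) = 0) (j : ℕ) (z : MonoidAlgebra K G)
    (hz : ∀ g, sl i g z ∈ (AI K V) ^ j) (g : G) : sl i g (D z) ∈ (AI K V) ^ (j + 1) := by
  choose s hs using hπ
  rw [sl_decomp i π hi hker s hs z, map_sum, map_sum]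
  refine Submodule.sum_mem _ fun γ _ => ?_
  rw [hD, sl_io_mul, pow_succ]
  refine Ideal.mul_mem_mul (hz _) ?_
  rw [mem_AI]
  exact (phi_eq_zero_iff i π hi hker (fun γ => ⟨s γ, hs γ⟩) _).1 (hD0 _) g

theorem filt_nil (hi : Function.Injective i) (hker : ∀ g, π g = 1 ↔ ∃ v, i v = g)
    (hπ : Function.Surjective π) (D : MonoidAlgebra K G →ₗ[K] MonoidAlgebra K G)
    (hD : ∀ (a : MonoidAlgebra K V) (y : MonoidAlgebra K G), D (io i a * y) = io i a * D y)
    (hD0 : ∀ y, mapDomainRingHom K π (D y) = 0) (n : ℕ) (hn : (AI K V) ^ n = ⊥) :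
    D ^ n = 0 := by
  have h1 : ∀ j : ℕ, ∀ z g, sl i g ((D ^ j) z) ∈ (AI K V) ^ j := by
    intro j
    induction j with
    | zero =>
      intro z g
      rw [pow_zero (AI K V), Ideal.one_eq_top]
      exact Submodule.mem_top
    | succ j ih =>
      intro z g
      rw [pow_succ' D j, Module.End.mul_apply]
      exact filt_step i π hi hker hπ D hD hD0 j _ (ih z) g
  apply LinearMap.ext
  intro z
  apply ext_coeff
  intro g
  have h2 := h1 n z g
  rw [hn, Ideal.mem_bot] at h2
  have h3 := congrArg (fun y => y.coeff (1 : V)) h2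
  simp only [coeff_sl, map_one, one_mul] at h3
  rw [h3]
  rfl

/-- central elements -/
theorem inv_of_comm {x : MonoidAlgebra K G} (h : ∀ y, x * y = y * x) : Inv x :=
  mem_center_iff.1 (Subalgebra.mem_center_iff.2 fun y => (h y).symm)

/-- **Lemma L.** -/
theorem lift_central (p : ℕ) [hp : Fact p.Prime] [CharP K p] (hV : IsPGroup p V)
    (hi : Function.Injective i) (hker : ∀ g, π g = 1 ↔ ∃ v, i v = g)
    (hπ : Function.Surjective π) {F : MonoidAlgebra K Γ} (hF : Inv F) (hFF : F * F = F)
    (hsupp : ∀ g, F.coeff (π g) ≠ 0 → ∀ v, g * i v = i v * g) :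
    ∃ F' : MonoidAlgebra K G, Inv F' ∧ F' * F' = F' ∧ mapDomainRingHom K π F' = F := by
  classical
  have hcp : CharP (MonoidAlgebra K G) p :=
    charP_of_injective_algebraMap (algebraMap K (MonoidAlgebra K G)).injective p
  have hec : ExpChar (MonoidAlgebra K G) p := ExpChar.prime hp.out
  have hcpE : CharP (Module.End K (MonoidAlgebra K G)) p :=
    charP_of_injective_algebraMap
      (algebraMap K (Module.End K (MonoidAlgebra K G))).injective p
  have hecE : ExpChar (Module.End K (MonoidAlgebra K G)) p := ExpChar.prime hp.out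
  obtain ⟨n, hn⟩ := AI_nilpotent (K := K) hV
  have hnp : n ≤ p ^ n := (Nat.lt_pow_self hp.out.one_lt).le
  have hpow : ∀ k : ℕ, F ^ (k + 1) = F := by
    intro k
    induction k with
    | zero => rw [zero_add, pow_one]
    | succ k ih => rw [pow_succ, ih, hFF]
  have hpow' : F ^ p ^ n = F := by
    obtain ⟨k, hk⟩ := Nat.exists_eq_succ_of_ne_zero (pow_ne_zero n hp.out.ne_zero)
    rw [hk, Nat.succ_eq_add_one, hpow]
  choose s hs using hπ
  have hπ' : Function.Surjective π := fun γ => ⟨s γ, hs γ⟩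
  set x₀ : MonoidAlgebra K G := ∑ γ : Γ, single (s γ) (F.coeff γ) with hx₀
  have hφ : mapDomainRingHom K π x₀ = F := by
    rw [hx₀, map_sum]
    apply ext_coeff
    intro γ
    rw [coeff_sum, Finsupp.coe_finsetSum, Finset.sum_apply]
    simp only [phi_single, hs, coeff_single, Finsupp.single_apply]
    simp
  have hcomm : ∀ a : MonoidAlgebra K V, x₀ * io i a = io i a * x₀ := by
    intro a
    rw [hx₀, Finset.sum_mul, Finset.mul_sum]
    refine Finset.sum_congr rfl fun γ _ => ?_
    by_cases h : F.coeff γ = 0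
    · rw [h, single_zero, zero_mul, mul_zero]
    · have h1 := hsupp (s γ) (by rwa [hs])
      apply ext_coeff
      intro g
      rw [coeff_io_mul, coeff_single_mul_apply, io, coeff_phi, Finset.mul_sum]
      refine Finset.sum_congr rfl fun v _ => ?_
      rw [coeff_single, Finsupp.single_apply]
      have h2 : (i v = (s γ)⁻¹ * g) ↔ (s γ = (i v)⁻¹ * g) := by
        rw [eq_inv_mul_iff_mul_eq, eq_inv_mul_iff_mul_eq, h1 v]
      by_cases h3 : i v = (s γ)⁻¹ * g
      · rw [if_pos h3, if_pos (h2.1 h3), mul_comm]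
      · rw [if_neg h3, if_neg (fun h4 => h3 (h2.2 h4)), mul_zero, mul_zero]
  -- the commutator with `x₀`
  have hD : (LinearMap.mulLeft K x₀ - LinearMap.mulRight K x₀) ^ n = 0 := by
    refine filt_nil i π hi hker hπ' _ (fun a y => ?_) (fun y => ?_) n hn
    · rw [LinearMap.sub_apply, LinearMap.sub_apply, LinearMap.mulLeft_apply,
        LinearMap.mulRight_apply, LinearMap.mulLeft_apply, LinearMap.mulRight_apply, mul_sub,
        ← mul_assoc, hcomm, mul_assoc, mul_assoc]
    · rw [LinearMap.sub_apply, LinearMap.mulLeft_apply, LinearMap.mulRight_apply, map_sub,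
        map_mul, map_mul, hφ, hF.comm, sub_self]
  have hD2 : (LinearMap.mulLeft K x₀ - LinearMap.mulRight K x₀) ^ p ^ n = 0 :=
    pow_eq_zero_of_le hnp hD
  rw [sub_pow_expChar_pow_of_commute p n (LinearMap.commute_mulLeft_right x₀ x₀),
    LinearMap.pow_mulLeft, LinearMap.pow_mulRight, sub_eq_zero] at hD2
  set y₁ := x₀ ^ p ^ n with hy₁
  have hy₁c : ∀ y, y₁ * y = y * y₁ := fun y => by
    have := congrArg (fun f => f y) hD2
    simpa only [LinearMap.mulLeft_apply, LinearMap.mulRight_apply] using this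
  have hφ1 : mapDomainRingHom K π y₁ = F := by rw [hy₁, map_pow, hφ, hpow']
  set u := y₁ * y₁ - y₁ with hu
  have huc : ∀ y, u * y = y * u := fun y => by
    rw [hu, sub_mul, mul_sub, mul_assoc, hy₁c y, ← mul_assoc, hy₁c y, mul_assoc]
  have hφu : mapDomainRingHom K π u = 0 := by
    rw [hu, map_sub, map_mul, hφ1, hFF, sub_self]
  have hD3 : (LinearMap.mulLeft K u) ^ n = 0 := by
    refine filt_nil i π hi hker hπ' _ (fun a y => ?_) (fun y => ?_) n hn
    · rw [LinearMap.mulLeft_apply, LinearMap.mulLeft_apply, ← mul_assoc, huc, mul_assoc]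
    · rw [LinearMap.mulLeft_apply, map_mul, hφu, zero_mul]
  have hun : u ^ n = 0 := by
    rw [LinearMap.pow_mulLeft] at hD3
    have := congrArg (fun f => f 1) hD3
    simpa only [LinearMap.mulLeft_apply, mul_one, LinearMap.zero_apply] using this
  have hup : u ^ p ^ n = 0 := pow_eq_zero_of_le hnp hun
  rw [hu, sub_pow_expChar_pow_of_commute p n ((Commute.refl y₁).mul_left (Commute.refl y₁)),
    sub_eq_zero, Commute.mul_pow (Commute.refl y₁)] at hup
  refine ⟨y₁ ^ p ^ n, ?_, hup, ?_⟩
  · exact (inv_of_comm hy₁c).pow _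
  · rw [map_pow, hφ1, hpow']

end NL

end H91.Nav
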