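import Pool.Agent.H91.Nav.Steps

/-!
# The induction along a series of normal subgroups
-/

set_option autoImplicit false
set_option linter.unusedSectionVars false

namespace H91.Nav

open MonoidAlgebra

section Abel

variable (p : ℕ) [hp : Fact p.Prime] (K : Type) [Field K] [CharP K p] [PerfectRing K p]

theorem ker_lift {G Γ : Type} [Group G] [Group Γ] (π : G →* Γ) (W : Subgroup G) [W.Normal]
    (hW : W ≤ π.ker) : (QuotientGroup.lift W π hW).ker = π.ker.map (QuotientGroup.mk' W) := by
  ext q
  induction q using QuotientGroup.induction_on with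
  | H g =>
    rw [MonoidHom.mem_ker, QuotientGroup.lift_mk]
    constructor
    · intro h
      exact ⟨g, h, rfl⟩
    · rintro ⟨x, hx, hxg⟩
      have h1 : x⁻¹ * g ∈ W := (QuotientGroup.eq).1 hxg
      have h2 : π (x⁻¹ * g) = 1 := hW h1
      have hx' : π x = 1 := hx
      rw [map_mul, map_inv, hx', inv_one, one_mul] at h2
      exact h2

/-- normal `p`-subgroups centralised by the derived subgroup -/
theorem NI.of_abel (n : ℕ) : ∀ {G Γ : Type} [Group G] [Group Γ] [Finite G] (π : G →* Γ),
    Function.Surjective π → IsPGroup p π.ker →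
    (∀ x ∈ commutator G, ∀ v ∈ π.ker, x * v * x⁻¹ = v) → Nat.card π.ker ≤ n → NI p K π := by
  induction n with
  | zero =>
    intro G Γ _ _ _ π _ _ _ h
    have : 0 < Nat.card π.ker := Nat.card_pos
    omega
  | succ n ih =>
    intro G Γ _ _ _ π hπ hV hc hn
    by_cases hbot : π.ker = ⊥
    · refine NI.of_not_dvd p K π hπ ?_
      rw [hbot, Subgroup.card_bot]
      exact fun h => hp.out.one_lt.ne' (Nat.dvd_one.1 h)
    -- a minimal normal subgroup
    have hfin : {W : Subgroup G | W.Normal ∧ W ≠ ⊥ ∧ W ≤ π.ker}.Finite := Set.toFinite _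
    obtain ⟨W, ⟨⟨hWN, hWb, hWk⟩, hmin⟩⟩ := hfin.exists_minimal
      ⟨π.ker, ⟨inferInstance, hbot, le_rfl⟩⟩
    have hker1 : (QuotientGroup.mk' W).ker = W := QuotientGroup.ker_mk' W
    have h1 : NI p K (QuotientGroup.mk' W) := by
      refine NI.of_fpf p K _ (QuotientGroup.mk'_surjective W) ?_ ?_
      · rw [hker1]
        exact hV.to_le hWk
      · rw [hker1]
        intro g
        -- the centraliser of `g` in `W`
        set D : Subgroup G :=
          { carrier := {w | w ∈ W ∧ g * w * g⁻¹ = w}
            mul_mem' := by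
              rintro a b ⟨ha, ha'⟩ ⟨hb, hb'⟩
              refine ⟨W.mul_mem ha hb, ?_⟩
              calc g * (a * b) * g⁻¹ = (g * a * g⁻¹) * (g * b * g⁻¹) := by group
                _ = a * b := by rw [ha', hb']
            one_mem' := ⟨W.one_mem, by group⟩
            inv_mem' := by
              rintro a ⟨ha, ha'⟩
              refine ⟨W.inv_mem ha, ?_⟩
              calc g * a⁻¹ * g⁻¹ = (g * a * g⁻¹)⁻¹ := by group
                _ = a⁻¹ := by rw [ha'] } with hD
        have hDN : D.Normal := by
          constructor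
          rintro w ⟨hw, hw'⟩ h
          refine ⟨hWN.conj_mem w hw h, ?_⟩
          have hx : h⁻¹ * g * h * g⁻¹ ∈ commutator G := by
            have := Subgroup.commutator_mem_commutator (Subgroup.mem_top h⁻¹) (Subgroup.mem_top g)
            rw [commutatorElement_def, inv_inv] at this
            exact this
          have h2 := hc _ hx w (hWk hw)
          calc g * (h * w * h⁻¹) * g⁻¹
              = h * ((h⁻¹ * g * h * g⁻¹) * (g * w * g⁻¹) * (h⁻¹ * g * h * g⁻¹)⁻¹) * h⁻¹ := by group
            _ = h * w * h⁻¹ := by rw [hw', h2]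
        by_cases hDb : D = ⊥
        · right
          intro v hv hgv
          have : v ∈ D := ⟨hv, hgv⟩
          rw [hDb, Subgroup.mem_bot] at this
          exact this
        · left
          intro v hv
          have hDW : D ≤ W := fun w hw => hw.1
          have := hmin ⟨hDN, hDb, hDW.trans hWk⟩ hDW
          exact (this hv).2
    have hsurj : Function.Surjective (QuotientGroup.lift W π hWk) :=
      QuotientGroup.lift_surjective_of_surjective W π hπ hWk
    have hcard := card_ker π hπ
    have hcard2 := card_ker (QuotientGroup.lift W π hWk) hsurj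
    have hcard3 : Nat.card G = Nat.card (G ⧸ W) * Nat.card W :=
      Subgroup.card_eq_card_quotient_mul_card_subgroup W
    have hcard4 : Nat.card π.ker = Nat.card (QuotientGroup.lift W π hWk).ker * Nat.card W := by
      have hpos : 0 < Nat.card Γ := by
        rw [Nat.card_congr (QuotientGroup.quotientKerEquivOfSurjective π hπ).symm.toEquiv]
        exact Nat.card_pos
      apply Nat.eq_of_mul_eq_mul_left hpos
      rw [← hcard, hcard3, hcard2, mul_assoc]
    have h2 : NI p K (QuotientGroup.lift W π hWk) := by
      refine ih _ hsurj ?_ ?_ ?_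
      · rw [ker_lift]
        exact hV.map _
      · rw [ker_lift]
        rintro x hx _ ⟨v, hv, rfl⟩
        have hx' : x ∈ (commutator G).map (QuotientGroup.mk' W) := by
          rw [commutator_def, Subgroup.map_commutator,
            Subgroup.map_top_of_surjective _ (QuotientGroup.mk'_surjective W)]
          exact hx
        obtain ⟨y, hy, rfl⟩ := hx'
        rw [← map_mul, ← map_inv, ← map_mul, hc y hy v hv]
      · have hW1 : 1 < Nat.card W := by
          rw [Subgroup.one_lt_card_iff_ne_bot]
          exact hWb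
        have hpos : 0 < Nat.card (QuotientGroup.lift W π hWk).ker := Nat.card_pos
        rw [hcard4] at hn
        nlinarith
    have h3 : π = (QuotientGroup.lift W π hWk).comp (QuotientGroup.mk' W) := by
      ext g
      rfl
    have hfΓ : Finite Γ := Finite.of_surjective π hπ
    rw [h3]
    exact NI.comp p K (QuotientGroup.mk'_surjective W) hsurj h1 h2

end Abel

section Chain

variable (p : ℕ) [hp : Fact p.Prime] (K : Type) [Field K] [CharP K p] [PerfectRing K p]

theorem NI.chain {G : Type} [Group G] [Finite G] (n : ℕ) (c : ℕ → Subgroup G)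
    [hN : ∀ i, (c i).Normal] (h0 : c 0 = ⊥) (hmono : ∀ i < n, c i ≤ c (i + 1))
    (hfac : ∀ i < n, ¬ p ∣ (c i).relIndex (c (i + 1)) ∨
      ((∃ k, (c i).relIndex (c (i + 1)) = p ^ k) ∧
        ((∀ g : G, (∀ v ∈ c (i + 1), g * v * g⁻¹ * v⁻¹ ∈ c i) ∨
            (∀ v ∈ c (i + 1), g * v * g⁻¹ * v⁻¹ ∈ c i → v ∈ c i)) ∨
          ⁅commutator G, c (i + 1)⁆ ≤ c i))) :
    ∀ j ≤ n, NI p K (QuotientGroup.mk' (c j)) := by
  intro j
  induction j with
  | zero =>
    intro _
    refine NI.of_not_dvd p K _ (QuotientGroup.mk'_surjective _) ?_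
    rw [QuotientGroup.ker_mk', h0, Subgroup.card_bot]
    exact fun h => hp.out.one_lt.ne' (Nat.dvd_one.1 h)
  | succ i ih =>
    intro hi
    have hle : c i ≤ c (i + 1) := hmono i (by omega)
    have hle' : c i ≤ (QuotientGroup.mk' (c (i + 1))).ker := by
      rw [QuotientGroup.ker_mk']
      exact hle
    set ψ := QuotientGroup.lift (c i) (QuotientGroup.mk' (c (i + 1))) hle' with hψ
    have hsurj : Function.Surjective ψ :=
      QuotientGroup.lift_surjective_of_surjective _ _ (QuotientGroup.mk'_surjective _) hle'
    have hker : ψ.ker = (c (i + 1)).map (QuotientGroup.mk' (c i)) := by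
      rw [hψ, ker_lift, QuotientGroup.ker_mk']
    have hcard : Nat.card ψ.ker = (c i).relIndex (c (i + 1)) := by
      have h1 := card_ker ψ hsurj
      have h2 := Subgroup.relIndex_mul_index hle
      have hpos : 0 < Nat.card (G ⧸ c (i + 1)) := Nat.card_pos
      apply Nat.eq_of_mul_eq_mul_left hpos
      rw [← h1]
      change Nat.card (G ⧸ c i) = (c (i + 1)).index * _
      rw [mul_comm, h2]
      rfl
    have hmem : ∀ g v : G, (QuotientGroup.mk' (c i) g * QuotientGroup.mk' (c i) v *
        (QuotientGroup.mk' (c i) g)⁻¹ = QuotientGroup.mk' (c i) v) ↔ g * v * g⁻¹ * v⁻¹ ∈ c i := by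
      intro g v
      rw [← map_mul, ← map_inv, ← map_mul, ← mul_inv_eq_one, ← map_inv, ← map_mul]
      exact QuotientGroup.eq_one_iff _
    have hstep : NI p K ψ := by
      rcases hfac i (by omega) with h | ⟨⟨k, hk⟩, h | h⟩
      · exact NI.of_not_dvd p K ψ hsurj (by rwa [hcard])
      · refine NI.of_fpf p K ψ hsurj (IsPGroup.of_card (hcard.trans hk)) ?_
        rw [hker]
        intro q
        induction q using QuotientGroup.induction_on with
        | H g =>
          rcases h g with h1 | h1
          · left
            rintro _ ⟨v, hv, rfl⟩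
            exact (hmem g v).2 (h1 v hv)
          · right
            rintro _ ⟨v, hv, rfl⟩ hgv
            exact (QuotientGroup.eq_one_iff v).2 (h1 v hv ((hmem g v).1 hgv))
      · refine NI.of_abel p K _ ψ hsurj (IsPGroup.of_card (hcard.trans hk)) ?_ le_rfl
        rw [hker]
        rintro x hx _ ⟨v, hv, rfl⟩
        have hx' : x ∈ (commutator G).map (QuotientGroup.mk' (c i)) := by
          rw [commutator_def, Subgroup.map_commutator,
            Subgroup.map_top_of_surjective _ (QuotientGroup.mk'_surjective _)]
          exact hx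
        obtain ⟨y, hy, rfl⟩ := hx'
        rw [hmem]
        exact h (Subgroup.commutator_mem_commutator hy hv)
    have hcomp : QuotientGroup.mk' (c (i + 1)) = ψ.comp (QuotientGroup.mk' (c i)) := by
      ext g
      rfl
    rw [hcomp]
    refine NI.comp p K (QuotientGroup.mk'_surjective _) hsurj ?_ hstep
    apply ih
    omega

end Chain

section Conv

variable {K : Type} [Field K] {G : Type} [Group G] [Fintype G]

/-- conversion from the form used in the frozen statement -/
theorem PB_of (e : MonoidAlgebra K G)
    (h : e ∈ Subalgebra.center K (MonoidAlgebra K G) ∧ e * e = e ∧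
      e * (∑ᶠ g : G, MonoidAlgebra.single g (1 : K)) ≠ 0 ∧
        ∀ x ∈ Subalgebra.center K (MonoidAlgebra K G), x * x = x → (x * e = e ∨ x * e = 0)) :
    PB e := by
  obtain ⟨h1, h2, h3, h4⟩ := h
  refine ⟨mem_center_iff.1 h1, h2, ?_, fun x hx hxx => h4 x (mem_center_iff.2 hx) hxx⟩
  intro h0
  apply h3
  apply ext_coeff
  intro g
  rw [finsum_eq_sum_of_fintype, Finset.mul_sum, coeff_sum, Finsupp.coe_finsetSum,
    Finset.sum_apply]
  simp only [coeff_mul_single_apply, mul_one]
  rw [aug_apply] at h0
  rw [show (0 : MonoidAlgebra K G).coeff g = 0 from rfl, ← h0]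
  exact Fintype.sum_equiv ((Equiv.inv G).trans (Equiv.mulLeft g)) _ _ (fun x => rfl)

theorem map_eq_AA {e : MonoidAlgebra K G} (he : PB e) :
    Submodule.map (LinearMap.mulRight K e)
      (Subalgebra.toSubmodule (Subalgebra.center K (MonoidAlgebra K G))) = AA ⊤ e := by
  ext y
  constructor
  · rintro ⟨z, hz, rfl⟩
    have hz' : Inv z := mem_center_iff.1 hz
    refine ⟨hz'.mul he.inv, supp_top _, ?_⟩
    rw [LinearMap.mulRight_apply, mul_assoc, he.idem]
  · rintro ⟨hy, -, hye⟩
    exact ⟨y, mem_center_iff.2 hy, hye⟩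

end Conv

end H91.Nav
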