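import Pool.Agent.H91.Nav.Filt

/-!
# The inequality for one abelian factor with trivial or fixed-point-free action
-/

set_option autoImplicit false
set_option linter.unusedSectionVars false

namespace H91.Nav

open MonoidAlgebra

section Core

variable {K : Type*} [Field K] {G : Type*} [Group G] [Fintype G] {V : Type*} [CommGroup V]
  [Fintype V] (i : V →* G) (cv : G →* MulAut V) {Γ : Type*} [Group Γ] [Fintype Γ] (π : G →* Γ)

/-- `G` acts on the nontrivial elements of `V` -/
@[reducible] def actX : MulAction G {w : V // w ≠ 1} where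
  smul g w := ⟨cv g w, fun h => w.2 (by
    rw [map_eq_one_iff _ (cv g).injective] at h
    exact h)⟩
  one_smul w := Subtype.ext (by
    change cv 1 (w : V) = w
    rw [map_one]
    rfl)
  mul_smul g h w := Subtype.ext (by
    change cv (g * h) (w : V) = cv g (cv h w)
    rw [map_mul]
    rfl)

/-- evaluation at an element of `V` -/
noncomputable def evL (K : Type*) [Field K] {V : Type*} [CommGroup V] [Fintype V] (Γ : Type*)
    [Group Γ] [Fintype Γ] (w : V) : (Γ → MonoidAlgebra K V) →ₗ[K] MonoidAlgebra K Γ where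
  toFun F := mk (fun η => (F η).coeff w)
  map_add' x y := ext_coeff fun η => by
    simp only [coeff_mk, coeff_add, Finsupp.add_apply, Pi.add_apply]
  map_smul' c x := ext_coeff fun η => by
    simp only [coeff_mk, coeff_smul_apply, RingHom.id_apply, Pi.smul_apply]

theorem coeff_evL (w : V) (F : Γ → MonoidAlgebra K V) (η : Γ) :
    (evL K Γ w F).coeff η = (F η).coeff w := rfl

theorem evL_mem_SS {J : Submodule K (MonoidAlgebra K V)} {ē : MonoidAlgebra K Γ}
    {F : Γ → MonoidAlgebra K V} (hF : F ∈ WW cv π J ē) (w : V) :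
    evL K Γ w F ∈ SS (cv.ker.map π) ē := by
  obtain ⟨-, h1, h2⟩ := hF
  refine ⟨?_, ?_⟩
  · rintro _ ⟨c, hc, rfl⟩ η
    have hc' : cv c = 1 := hc
    rw [coeff_evL, coeff_evL, h1, tw_of_eq_one cv hc']
  · apply ext_coeff
    intro η
    rw [coeff_mul_r, coeff_evL]
    have h3 := congrArg (fun y => y.coeff w) (h2 η)
    simp only [coeff_sum, Finsupp.coe_finsetSum, Finset.sum_apply, coeff_smul_apply,
      smul_eq_mul] at h3
    rw [← h3]
    refine Finset.sum_congr rfl fun ζ _ => ?_
    rw [coeff_evL, mul_comm]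

theorem finrank_WW_le (ē : MonoidAlgebra K Γ) :
    Module.finrank K (WW cv π (IJ K V 1) ē) ≤
      Nat.card (@MulAction.orbitRel.Quotient G {w : V // w ≠ 1} _ (actX cv)) *
        Module.finrank K (SS (cv.ker.map π) ē) := by
  classical
  let _ := actX cv
  set Ω := MulAction.orbitRel.Quotient G {w : V // w ≠ 1} with hΩ
  have : Finite Ω := Quotient.finite _
  have : Fintype Ω := Fintype.ofFinite Ω
  set L : WW cv π (IJ K V 1) ē →ₗ[K] (Ω → SS (cv.ker.map π) ē) :=
    LinearMap.pi (fun ω => LinearMap.codRestrict (SS (cv.ker.map π) ē)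
      ((evL K Γ ((Quotient.out ω : {w : V // w ≠ 1}) : V)) ∘ₗ (WW cv π (IJ K V 1) ē).subtype)
      (fun F => evL_mem_SS cv π F.2 _)) with hL
  have hLa : ∀ (F : WW cv π (IJ K V 1) ē) (ω : Ω) (η : Γ),
      ((L F ω : SS (cv.ker.map π) ē) : MonoidAlgebra K Γ).coeff η =
        ((F : Γ → MonoidAlgebra K V) η).coeff ((Quotient.out ω : {w : V // w ≠ 1}) : V) :=
    fun F ω η => rfl
  have hinj : Function.Injective L := by
    rw [← LinearMap.ker_eq_bot, LinearMap.ker_eq_bot']
    rintro ⟨F, hF⟩ h0
    apply Subtype.ext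
    change F = 0
    have h1 : ∀ (w : {w : V // w ≠ 1}) (η : Γ), (F η).coeff (w : V) = 0 := by
      intro w
      have hrel : (MulAction.orbitRel G {w : V // w ≠ 1}).r
          (Quotient.out (Quotient.mk'' w : Ω)) w := Quotient.mk_out w
      obtain ⟨g, hg⟩ := hrel
      intro η
      have h2 := hLa ⟨F, hF⟩ (Quotient.mk'' w : Ω) (π g * η * (π g)⁻¹)
      rw [h0] at h2
      have h3 : ((Quotient.out (Quotient.mk'' w : Ω) : {w : V // w ≠ 1}) : V) = cv g w := by
        rw [← hg]
        rfl
      have h4 : (0 : K) = (F (π g * η * (π g)⁻¹)).coeff (cv g w) := by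
        rw [← h3]
        exact h2
      rw [hF.2.1, coeff_tw, map_inv] at h4
      rw [h4]
      congr 1
      exact (MulEquiv.symm_apply_apply (cv g) (w : V)).symm
    funext η
    apply ext_coeff
    intro w
    by_cases hw : w = 1
    · subst hw
      have h5 : aug (F η) = 0 := by
        have := hF.1 η
        rw [mem_IJ, pow_one] at this
        exact this
      rw [aug_apply, ← Finset.add_sum_erase _ _ (Finset.mem_univ (1 : V)),
        Finset.sum_eq_zero (fun w hw => h1 ⟨w, Finset.ne_of_mem_erase hw⟩ η), add_zero] at h5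
      rw [h5]
      rfl
    · rw [h1 ⟨w, hw⟩ η]
      rfl
  have h6 := LinearMap.finrank_le_finrank_of_injective hinj
  rw [Module.finrank_pi_fintype, Finset.sum_const, Finset.card_univ, smul_eq_mul] at h6
  rw [Nat.card_eq_fintype_card]
  exact h6

variable (hi : Function.Injective i) (hker : ∀ g, π g = 1 ↔ ∃ v, i v = g)
  (hπ : Function.Surjective π) (hcv : ∀ g w, i (cv g w) = g * i w * g⁻¹)

include hi hcv in
theorem range_le : ∀ v, cv (i v) = 1 := by
  intro v
  ext w
  apply hi
  rw [hcv, ← map_mul, ← map_inv, ← map_mul, mul_comm v w, mul_inv_cancel_right]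
  rfl

include hi hcv in
theorem mem_ker_of_comm {x : G} (h : ∀ v, i v * x * (i v)⁻¹ = x) : cv x = 1 := by
  ext w
  apply hi
  have h1 := h w
  have h2 : x * i w * x⁻¹ = i w := by
    have h3 : i w * x = x * i w := by
      calc i w * x = (i w * x * (i w)⁻¹) * i w := by group
        _ = _ := by rw [h1]
    rw [← h3, mul_inv_cancel_right]
  rw [hcv, h2]
  rfl

include hi hker hcv in
theorem mem_of_map_mem {g : G} (hg : π g ∈ cv.ker.map π) : cv g = 1 := by
  obtain ⟨c, hc, hcg⟩ := hg
  have h1 : π (g * c⁻¹) = 1 := by rw [map_mul, map_inv, hcg, mul_inv_cancel]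
  obtain ⟨v, hv⟩ := (hker _).1 h1
  have h2 : g = i v * c := by rw [hv, inv_mul_cancel_right]
  have hc' : cv c = 1 := hc
  rw [h2, map_mul, range_le i cv hi hcv, hc', one_mul]

include hi hker hcv in
/-- central elements of `K[G]` have image supported on the centraliser of `V` -/
theorem supp_phi (p : ℕ) [hp : Fact p.Prime] [CharP K p] (hV : IsPGroup p V)
    {z : MonoidAlgebra K G} (hz : Inv z) :
    Supp (cv.ker.map π) (mapDomainRingHom K π z) := by
  classical
  intro γ hγ
  rw [coeff_phi, ← Finset.sum_filter]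
  refine sum_no_fixed (p := p) i.range
    (hV.of_surjective i.rangeRestrict i.rangeRestrict_surjective) _ ?_ _ ?_ ?_
  · rintro _ ⟨v, rfl⟩ g hg
    rw [Finset.mem_filter] at hg ⊢
    refine ⟨Finset.mem_univ _, ?_⟩
    rw [map_mul, map_mul, map_inv, (hker (i v)).2 ⟨v, rfl⟩, hg.2]
    simp
  · intro h _ g
    exact hz h g
  · intro g hg
    rw [Finset.mem_filter] at hg
    by_contra hcon
    push Not at hcon
    apply hγ
    rw [← hg.2]
    exact ⟨g, mem_ker_of_comm i cv hi hcv (fun v => hcon _ ⟨v, rfl⟩), rfl⟩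

include hi hker hπ hcv in
theorem finrank_AA_top_le (p : ℕ) [hp : Fact p.Prime] [CharP K p] (hV : IsPGroup p V)
    (e : MonoidAlgebra K G) :
    Module.finrank K (AA ⊤ e) ≤ Module.finrank K (UU i (IJ K V 1) e) +
      Module.finrank K (AA (cv.ker.map π) (mapDomainRingHom K π e)) := by
  set φ : MonoidAlgebra K G →ₗ[K] MonoidAlgebra K Γ :=
    { toFun := mapDomainRingHom K π
      map_add' := map_add _
      map_smul' := fun c x => by
        rw [Algebra.smul_def, Algebra.smul_def, map_mul, Algebra.algebraMap_eq_smul_one,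
          Algebra.algebraMap_eq_smul_one, one_def, smul_single, smul_eq_mul, mul_one, phi_single,
          map_one, one_def, smul_single, smul_eq_mul, mul_one]
        rfl } with hφ
  have h1 := LinearMap.finrank_range_add_finrank_ker (φ.domRestrict (AA ⊤ e))
  have h2 : Module.finrank K (LinearMap.range (φ.domRestrict (AA ⊤ e))) ≤
      Module.finrank K (AA (cv.ker.map π) (mapDomainRingHom K π e)) := by
    apply Submodule.finrank_mono
    rintro _ ⟨⟨z, hz, -, hze⟩, rfl⟩
    refine ⟨Inv.phi hπ hz, supp_phi i cv π hi hker hcv p hV hz, ?_⟩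
    change mapDomainRingHom K π z * _ = mapDomainRingHom K π z
    rw [← map_mul, hze]
  have h3 : Module.finrank K (LinearMap.ker (φ.domRestrict (AA ⊤ e))) ≤
      Module.finrank K (UU i (IJ K V 1) e) := by
    rw [← Submodule.finrank_map_subtype_eq (AA ⊤ e) (LinearMap.ker (φ.domRestrict (AA ⊤ e)))]
    apply Submodule.finrank_mono
    rintro _ ⟨⟨z, hz, hzt, hze⟩, hzk, rfl⟩
    refine ⟨hz, hze, fun g => ?_⟩
    rw [mem_IJ, pow_one]
    exact (phi_eq_zero_iff i π hi hker hπ z).1 hzk g
  omega

/-- the stabilisers -/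
theorem card_V (hfpf : ∀ g, cv g = 1 ∨ ∀ w, cv g w = w → w = 1) :
    Nat.card V = 1 + Nat.card (@MulAction.orbitRel.Quotient G {w : V // w ≠ 1} _ (actX cv)) *
      cv.ker.index := by
  classical
  let _ := actX cv
  have h1 : Nat.card V = 1 + Nat.card {w : V // w ≠ 1} := by
    rw [Nat.card_eq_fintype_card, Nat.card_eq_fintype_card, Fintype.card_subtype_compl,
      Fintype.card_subtype_eq]
    have : 0 < Fintype.card V := Fintype.card_pos
    omega
  have h2 : ∀ x : {w : V // w ≠ 1}, MulAction.stabilizer G x = cv.ker := by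
    intro x
    ext g
    rw [MulAction.mem_stabilizer_iff, MonoidHom.mem_ker]
    constructor
    · intro h
      rcases hfpf g with h3 | h3
      · exact h3
      · exact absurd (h3 x (congrArg Subtype.val h)) x.2
    · intro h
      apply Subtype.ext
      change cv g (x : V) = x
      rw [h]
      rfl
  have h3 := Nat.card_congr (MulAction.selfEquivSigmaOrbitsQuotientStabilizer G {w : V // w ≠ 1})
  rw [h1, h3]
  congr 1
  have : Finite (MulAction.orbitRel.Quotient G {w : V // w ≠ 1}) := Quotient.finite _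
  have : Fintype (MulAction.orbitRel.Quotient G {w : V // w ≠ 1}) := Fintype.ofFinite _
  rw [Nat.card_sigma]
  have h4 : ∀ ω : MulAction.orbitRel.Quotient G {w : V // w ≠ 1},
      Nat.card (G ⧸ MulAction.stabilizer G (Quotient.out ω)) = cv.ker.index := by
    intro ω
    rw [h2]
    rfl
  rw [Finset.sum_congr rfl (fun ω _ => h4 ω), Finset.sum_const, Finset.card_univ, smul_eq_mul]
  congr 1
  exact Nat.card_eq_fintype_card.symm

theorem index_ne_zero (p : ℕ) [hp : Fact p.Prime] [CharP K p] (hV : IsPGroup p V)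
    (hfpf : ∀ g, cv g = 1 ∨ ∀ w, cv g w = w → w = 1) : (cv.ker.index : K) ≠ 0 := by
  rw [Ne, CharP.cast_eq_zero_iff K p]
  intro hdvd
  have h1 := card_V cv hfpf
  obtain ⟨k, hk⟩ := IsPGroup.iff_card.1 hV
  have h2 : ¬ p ∣ Nat.card V := by
    intro h3
    rw [h1, Nat.dvd_add_left (Dvd.dvd.mul_left hdvd _)] at h3
    exact hp.out.one_lt.ne' (Nat.dvd_one.1 h3)
  have h3 : k = 0 := by
    by_contra h4
    exact h2 (hk ▸ dvd_pow_self p h4)
  rw [h3, pow_zero] at hk
  have h4 : Subsingleton V := (Nat.card_eq_one_iff_unique.1 hk).1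
  have h5 : cv.ker = ⊤ := by
    rw [eq_top_iff]
    intro g _
    rw [MonoidHom.mem_ker]
    ext w
    exact Subsingleton.elim _ _
  rw [h5, Subgroup.index_top] at hdvd
  exact hp.out.one_lt.ne' (Nat.dvd_one.1 hdvd)

end Core

end H91.Nav
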