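import Pool.Agent.H91.Nav.Core

/-!
# The inequality for one abelian factor with trivial or fixed-point-free action (conclusion)
-/

set_option autoImplicit false
set_option linter.unusedSectionVars false

namespace H91.Nav

open MonoidAlgebra

section Res

variable {K : Type*} [Field K] {Γ : Type*} [Group Γ] [Fintype Γ]

theorem supp_resL (H : Subgroup Γ) (f : MonoidAlgebra K Γ) : Supp H (resL H f) :=
  fun _ hg => coeff_resL_not_mem f hg

theorem inv_resL (H : Subgroup Γ) [hH : H.Normal] {f : MonoidAlgebra K Γ} (hf : Inv f) :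
    Inv (resL H f) := by
  intro u g
  by_cases hg : g ∈ H
  · rw [coeff_resL_mem f hg, coeff_resL_mem f (hH.conj_mem g hg u), hf u g]
  · rw [coeff_resL_not_mem f hg, coeff_resL_not_mem]
    intro h
    apply hg
    have := hH.conj_mem _ h u⁻¹
    convert this using 1
    group

theorem mul_resL {H : Subgroup Γ} {y f : MonoidAlgebra K Γ} (hy : Supp H y) (hyf : y * f = 0) :
    y * resL H f = 0 := by
  apply ext_coeff
  intro g
  by_cases hg : g ∈ H
  · rw [← hyf, coeff_mul_l, coeff_mul_l]
    refine Finset.sum_congr rfl fun h _ => ?_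
    by_cases hh : h ∈ H
    · rw [coeff_resL_mem f (H.mul_mem (H.inv_mem hh) hg)]
    · rw [hy h hh, zero_mul, zero_mul]
  · rw [hy.mul (supp_resL H f) g hg]
    rfl

theorem aug_resL_ne (p : ℕ) [hp : Fact p.Prime] [CharP K p] (H : Subgroup Γ) [hH : H.Normal]
    (hidx : (H.index : K) ≠ 0) {f : MonoidAlgebra K Γ} (hf : PB f) : aug (resL H f) ≠ 0 := by
  classical
  have h1 := phi_coeff_one_ne p (QuotientGroup.mk'_surjective H) (by
    rw [← Nat.card_eq_fintype_card]
    exact hidx) hf
  rw [coeff_phi] at h1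
  rw [aug_apply]
  convert h1 using 3 with g
  by_cases hg : g ∈ H
  · rw [coeff_resL_mem f hg, if_pos]
    exact (QuotientGroup.eq_one_iff g).2 hg
  · rw [coeff_resL_not_mem f hg, if_neg]
    intro h
    exact hg ((QuotientGroup.eq_one_iff g).1 h)

end Res

section Main

variable {K : Type*} [Field K] {G : Type*} [Group G] [Fintype G] {V : Type*} [CommGroup V]
  [Fintype V] (i : V →* G) (cv : G →* MulAut V) {Γ : Type*} [Group Γ] [Fintype Γ] (π : G →* Γ)
  (hi : Function.Injective i) (hker : ∀ g, π g = 1 ↔ ∃ v, i v = g)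
  (hπ : Function.Surjective π) (hcv : ∀ g w, i (cv g w) = g * i w * g⁻¹)

include hi hker hπ hcv in
theorem finrank_AA_le (p : ℕ) [hp : Fact p.Prime] [CharP K p] (hV : IsPGroup p V)
    [hH : (cv.ker.map π).Normal] (hidx : ((cv.ker.map π).index : K) ≠ 0)
    {e : MonoidAlgebra K G} {f : MonoidAlgebra K Γ} (he : PB e) (hf : PB f) :
    Module.finrank K (AA (cv.ker.map π) (mapDomainRingHom K π e)) ≤
      Module.finrank K (AA ⊤ f) := by
  classical
  set H := cv.ker.map π with hHd
  set f₁ := resL H f with hf₁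
  have hf₁I : Inv f₁ := inv_resL H hf.inv
  have hf₁S : Supp H f₁ := supp_resL H f
  obtain ⟨n, w, hw, hwS, hfit⟩ := fitting hf₁I hf₁S
  set F := f₁ ^ (n + 1) * w with hF
  have hFI : Inv F := (hf₁I.pow _).mul hw
  have hFS : Supp H F := (hf₁S.pow _).mul hwS
  have hFF : F * F = F := by
    calc F * F = f₁ ^ (n + 1) * w * F := rfl
      _ = w * (f₁ ^ (n + 1) * F) := by rw [← hw.comm, mul_assoc]
      _ = F := by rw [← hfit, hw.comm]
  have hFa : aug F ≠ 0 := by
    have h1 := congrArg aug hfit
    rw [map_mul] at h1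
    intro h2
    rw [h2, mul_zero, map_pow] at h1
    exact (pow_ne_zero _ (aug_resL_ne p H hidx hf)) h1
  obtain ⟨F', hF'I, hF'F, hF'φ⟩ := lift_central i π p hV hi hker hπ hFI hFF (by
    intro g hg v
    have h1 : π g ∈ H := by
      by_contra h
      exact hg (hFS _ h)
    have h2 := mem_of_map_mem i cv π hi hker hcv h1
    have h3 := hcv g v
    rw [h2] at h3
    change i v = _ at h3
    calc g * i v = (g * i v * g⁻¹) * g := by group
      _ = i v * g := by rw [← h3])
  have hFe : F * mapDomainRingHom K π e = mapDomainRingHom K π e := by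
    rw [← hF'φ, ← map_mul, he.mul_eq hF'I hF'F]
    rw [← aug_phi π, hF'φ]
    exact hFa
  set ē := mapDomainRingHom K π e with hē
  have key : ∀ y ∈ AA H ē, y * f = 0 → y = 0 := by
    rintro y ⟨hyI, hyS, hye⟩ hyf
    have h1 : y * f₁ = 0 := mul_resL hyS hyf
    have h2 : y * F = 0 := by
      rw [hF, pow_succ', mul_assoc f₁, ← mul_assoc, h1, zero_mul]
    calc y = y * ē := hye.symm
      _ = y * (F * ē) := by rw [hFe]
      _ = 0 := by rw [← mul_assoc, h2, zero_mul]
  have h1 : Module.finrank K ((AA H ē).map (LinearMap.mulRight K f)) =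
      Module.finrank K (AA H ē) := by
    have h2 := LinearMap.finrank_range_add_finrank_ker ((LinearMap.mulRight K f).domRestrict
      (AA H ē))
    have h3 : LinearMap.ker ((LinearMap.mulRight K f).domRestrict (AA H ē)) = ⊥ := by
      rw [LinearMap.ker_eq_bot']
      rintro ⟨y, hy⟩ h
      exact Subtype.ext (key y hy h)
    rw [h3, finrank_bot, add_zero, LinearMap.range_domRestrict] at h2
    exact h2
  rw [← h1]
  apply Submodule.finrank_mono
  rintro _ ⟨y, ⟨hyI, hyS, hye⟩, rfl⟩
  refine ⟨hyI.mul hf.inv, supp_top _, ?_⟩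
  rw [LinearMap.mulRight_apply, mul_assoc, hf.idem]

include hi hker hπ hcv in
/-- **Core theorem.** -/
theorem core (p : ℕ) [hp : Fact p.Prime] [CharP K p] [PerfectRing K p] (hV : IsPGroup p V)
    (hfpf : ∀ g, cv g = 1 ∨ ∀ w, cv g w = w → w = 1)
    {e : MonoidAlgebra K G} {f : MonoidAlgebra K Γ} (he : PB e) (hf : PB f) :
    Module.finrank K (AA ⊤ e) ≤ Module.finrank K (AA ⊤ f) * Nat.card V := by
  classical
  have hHN : (cv.ker.map π).Normal := Subgroup.Normal.map inferInstance π hπ
  have hleker : π.ker ≤ cv.ker := by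
    intro g hg
    obtain ⟨v, hv⟩ := (hker g).1 hg
    rw [← hv]
    exact range_le i cv hi hcv v
  have hidx : (cv.ker.map π).index = cv.ker.index := Subgroup.index_map_eq _ hπ hleker
  have hm : (cv.ker.index : K) ≠ 0 := index_ne_zero cv p hV hfpf
  have hm' : ((cv.ker.map π).index : K) ≠ 0 := by rwa [hidx]
  have h1 := finrank_AA_top_le i cv π hi hker hπ hcv p hV e
  have h2 := finrank_UU_le i cv π hi hker hπ hcv p hV cv.ker (fun c hc => hc) hm e
  have h3 := finrank_WW_le cv π (mapDomainRingHom K π e)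
  have h4 := finrank_AA_le i cv π hi hker hπ hcv p hV hm' he hf
  have h5 := finrank_char_p p (cv.ker.map π) (Inv.phi hπ he.inv)
    (supp_phi i cv π hi hker hcv p hV he.inv) (by rw [← map_mul, he.idem])
  have h6 := card_V cv hfpf
  set ē := mapDomainRingHom K π e with hē
  set k := Nat.card (@MulAction.orbitRel.Quotient G {w : V // w ≠ 1} _ (actX cv)) with hk
  set m := cv.ker.index with hmd
  have h7 : Nat.card Γ = Nat.card (cv.ker.map π : Subgroup Γ) * m := by
    rw [← hidx, Subgroup.card_mul_index]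
  have h8 : Module.finrank K (SS (cv.ker.map π) ē) =
      m * Module.finrank K (AA (cv.ker.map π) ē) := by
    have h9 : 0 < Nat.card (cv.ker.map π : Subgroup Γ) := Nat.card_pos
    apply Nat.eq_of_mul_eq_mul_left h9
    rw [h5, h7, mul_assoc]
  rw [h8] at h3
  calc Module.finrank K (AA ⊤ e)
      ≤ k * (m * Module.finrank K (AA (cv.ker.map π) ē)) +
        Module.finrank K (AA (cv.ker.map π) ē) := by omega
    _ = Module.finrank K (AA (cv.ker.map π) ē) * Nat.card V := by rw [h6]; ring
    _ ≤ Module.finrank K (AA ⊤ f) * Nat.card V := Nat.mul_le_mul_right _ h4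

end Main

end H91.Nav
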