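import Pool.Agent.H91.Nav.Cent

/-!
# The filtration of the centre by powers of the augmentation ideal of `K[V]`
-/

set_option autoImplicit false
set_option linter.unusedSectionVars false

namespace H91.Nav

open MonoidAlgebra

section Tw

variable {K : Type*} [Field K] {G : Type*} [Group G] {V : Type*} [CommGroup V]
  [Fintype V] (cv : G →* MulAut V)

/-- the action of `G` on `K[V]` -/
noncomputable def tw (g : G) : MonoidAlgebra K V →ₗ[K] MonoidAlgebra K V where
  toFun a := mk (fun w => a.coeff (cv g⁻¹ w))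
  map_add' x y := ext_coeff fun w => by
    simp only [coeff_mk, coeff_add, Finsupp.add_apply]
  map_smul' c x := ext_coeff fun w => by
    simp only [coeff_mk, coeff_smul_apply, RingHom.id_apply]

theorem coeff_tw (g : G) (a : MonoidAlgebra K V) (w : V) :
    (tw cv g a).coeff w = a.coeff (cv g⁻¹ w) := rfl

theorem tw_mul (g : G) (a b : MonoidAlgebra K V) : tw cv g (a * b) = tw cv g a * tw cv g b := by
  apply ext_coeff
  intro w
  rw [coeff_tw, coeff_mul_l, coeff_mul_l]
  refine Fintype.sum_equiv (cv g).toEquiv _ _ fun u => ?_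
  rw [coeff_tw, coeff_tw]
  have h1 : cv g⁻¹ ((cv g) u) = u := by
    rw [map_inv]
    exact MulEquiv.symm_apply_apply (cv g) u
  change a.coeff u * b.coeff (u⁻¹ * (cv g⁻¹) w) =
    a.coeff (cv g⁻¹ ((cv g) u)) * b.coeff (cv g⁻¹ (((cv g) u)⁻¹ * w))
  rw [map_mul (cv g⁻¹), map_inv (cv g⁻¹), h1]

theorem tw_tw (g h : G) (a : MonoidAlgebra K V) : tw cv g (tw cv h a) = tw cv (g * h) a := by
  apply ext_coeff
  intro w
  rw [coeff_tw, coeff_tw, coeff_tw, mul_inv_rev, map_mul cv]
  rfl

theorem tw_of_eq_one {g : G} (hg : cv g = 1) (a : MonoidAlgebra K V) : tw cv g a = a := by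
  apply ext_coeff
  intro w
  rw [coeff_tw, map_inv cv, hg, inv_one]
  rfl

theorem aug_tw (g : G) (a : MonoidAlgebra K V) : aug (tw cv g a) = aug a := by
  rw [aug_apply, aug_apply]
  exact Fintype.sum_equiv (cv g⁻¹).toEquiv _ _ fun w => rfl

theorem tw_mem_pow (g : G) (j : ℕ) : ∀ a : MonoidAlgebra K V, a ∈ (AI K V) ^ j →
    tw cv g a ∈ (AI K V) ^ j := by
  induction j with
  | zero =>
    intro a _
    rw [pow_zero (AI K V), Ideal.one_eq_top]
    exact Submodule.mem_top
  | succ j ih =>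
    intro a ha
    rw [pow_succ] at ha ⊢
    refine Submodule.mul_induction_on ha (fun x hx y hy => ?_) (fun x y hx hy => ?_)
    · rw [tw_mul]
      refine Ideal.mul_mem_mul (ih x hx) ?_
      rw [mem_AI, aug_tw]
      exact hy
    · rw [map_add]
      exact Ideal.add_mem _ hx hy

/-- equivariant projections -/
theorem exists_proj [Fintype G] (C : Subgroup G) (hC : ∀ c ∈ C, cv c = 1) (hm : (C.index : K) ≠ 0)
    (J : Submodule K (MonoidAlgebra K V)) (hJ : ∀ g, ∀ a ∈ J, tw cv g a ∈ J) :
    ∃ E : MonoidAlgebra K V →ₗ[K] MonoidAlgebra K V, (∀ a, E a ∈ J) ∧ (∀ a ∈ J, E a = a) ∧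
      ∀ g a, E (tw cv g a) = tw cv g (E a) := by
  classical
  obtain ⟨r, hr⟩ := LinearMap.exists_leftInverse_of_injective J.subtype
    (LinearMap.ker_eq_bot.2 Subtype.coe_injective)
  set E₀ : MonoidAlgebra K V →ₗ[K] MonoidAlgebra K V := J.subtype ∘ₗ r with hE₀
  have hE1 : ∀ a, E₀ a ∈ J := fun a => (r a).2
  have hE2 : ∀ a ∈ J, E₀ a = a := fun a ha => by
    have := congrArg (fun f => (f ⟨a, ha⟩ : MonoidAlgebra K V)) hr
    exact this
  set Φ : G ⧸ C → (MonoidAlgebra K V →ₗ[K] MonoidAlgebra K V) := fun q =>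
    Quotient.liftOn' q (fun g => tw cv g ∘ₗ E₀ ∘ₗ tw cv g⁻¹) (by
      intro g h hgh
      rw [QuotientGroup.leftRel_apply] at hgh
      have h1 : cv g = cv h := by
        have := hC _ hgh
        rw [map_mul, map_inv, inv_mul_eq_one] at this
        exact this
      apply LinearMap.ext
      intro a
      change tw cv g (E₀ (tw cv g⁻¹ a)) = tw cv h (E₀ (tw cv h⁻¹ a))
      have h2 : ∀ b : MonoidAlgebra K V, tw cv g b = tw cv h b := fun b => ext_coeff fun w => by
        rw [coeff_tw, coeff_tw, map_inv, map_inv, h1]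
      have h3 : ∀ b : MonoidAlgebra K V, tw cv g⁻¹ b = tw cv h⁻¹ b := fun b => ext_coeff fun w => by
        rw [coeff_tw, coeff_tw, inv_inv, inv_inv, h1]
      rw [h2, h3]) with hΦ
  have hΦmk : ∀ (g : G) (a : MonoidAlgebra K V),
      Φ (QuotientGroup.mk g) a = tw cv g (E₀ (tw cv g⁻¹ a)) := fun g a => rfl
  have hcard : ((Fintype.card (G ⧸ C) : ℕ) : K) ≠ 0 := by
    rw [← Nat.card_eq_fintype_card]
    exact hm
  refine ⟨((Fintype.card (G ⧸ C) : K)⁻¹) • ∑ q, Φ q, ?_, ?_, ?_⟩
  · intro a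
    rw [LinearMap.smul_apply, LinearMap.sum_apply]
    refine Submodule.smul_mem _ _ (Submodule.sum_mem _ fun q _ => ?_)
    induction q using QuotientGroup.induction_on with
    | H g =>
      rw [hΦmk]
      exact hJ _ _ (hE1 _)
  · intro a ha
    rw [LinearMap.smul_apply, LinearMap.sum_apply]
    have : ∀ q, Φ q a = a := by
      intro q
      induction q using QuotientGroup.induction_on with
      | H g =>
        rw [hΦmk, hE2 _ (hJ _ _ ha), tw_tw, mul_inv_cancel]
        exact tw_of_eq_one cv (map_one cv) a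
    simp only [this]
    rw [Finset.sum_const, Finset.card_univ, ← Nat.cast_smul_eq_nsmul K, smul_smul,
      inv_mul_cancel₀ hcard, one_smul]
  · intro g a
    rw [LinearMap.smul_apply, LinearMap.smul_apply, map_smul, LinearMap.sum_apply,
      LinearMap.sum_apply, map_sum]
    congr 1
    refine Fintype.sum_equiv (MulAction.toPerm g⁻¹) _ _ fun q => ?_
    induction q using QuotientGroup.induction_on with
    | H h =>
      rw [MulAction.toPerm_apply, MulAction.Quotient.smul_mk, hΦmk, hΦmk, tw_tw, tw_tw, smul_eq_mul]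
      congr 1
      · rw [mul_inv_cancel_left]
      · congr 2
        group

end Tw

section UW

variable {K : Type*} [Field K] {G : Type*} [Group G] [Fintype G] {V : Type*} [CommGroup V]
  [Fintype V] (i : V →* G) (cv : G →* MulAut V) {Γ : Type*} [Group Γ] [Fintype Γ] (π : G →* Γ)

/-- the filtration of the centre of the block -/
def UU (J : Submodule K (MonoidAlgebra K V)) (e : MonoidAlgebra K G) :
    Submodule K (MonoidAlgebra K G) where
  carrier := {z | Inv z ∧ z * e = z ∧ ∀ g, sl i g z ∈ J}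
  add_mem' := by
    rintro a b ⟨ha, ha1, ha'⟩ ⟨hb, hb1, hb'⟩
    refine ⟨ha.add hb, by rw [add_mul, ha1, hb1], fun g => ?_⟩
    rw [map_add]
    exact J.add_mem (ha' g) (hb' g)
  zero_mem' := ⟨invZero, zero_mul _, fun g => by rw [map_zero]; exact J.zero_mem⟩
  smul_mem' := by
    rintro c a ⟨ha, ha1, ha'⟩
    refine ⟨ha.smul c, by rw [smul_mul_assoc, ha1], fun g => ?_⟩
    rw [map_smul]
    exact J.smul_mem c (ha' g)

/-- the comparison space -/
def WW (J : Submodule K (MonoidAlgebra K V)) (ē : MonoidAlgebra K Γ) :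
    Submodule K (Γ → MonoidAlgebra K V) where
  carrier := {F | (∀ η, F η ∈ J) ∧ (∀ g η, F (π g * η * (π g)⁻¹) = tw cv g (F η)) ∧
    ∀ η, ∑ ζ, ē.coeff ζ • F (η * ζ⁻¹) = F η}
  add_mem' := by
    rintro a b ⟨ha, ha1, ha'⟩ ⟨hb, hb1, hb'⟩
    refine ⟨fun η => J.add_mem (ha η) (hb η), fun g η => ?_, fun η => ?_⟩
    · rw [Pi.add_apply, Pi.add_apply, ha1, hb1, map_add]
    · simp only [Pi.add_apply, smul_add, Finset.sum_add_distrib, ha', hb']
  zero_mem' := ⟨fun η => J.zero_mem, fun g η => by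
    rw [Pi.zero_apply, Pi.zero_apply, map_zero], fun η => by
    simp only [Pi.zero_apply, smul_zero, Finset.sum_const_zero]⟩
  smul_mem' := by
    rintro c a ⟨ha, ha1, ha'⟩
    refine ⟨fun η => J.smul_mem c (ha η), fun g η => ?_, fun η => ?_⟩
    · rw [Pi.smul_apply, Pi.smul_apply, ha1, map_smul]
    · simp only [Pi.smul_apply, smul_comm _ c, ← Finset.smul_sum, ha']

/-- the powers of the augmentation ideal as subspaces -/
noncomputable def IJ (K : Type*) [Field K] (V : Type*) [CommGroup V] [Fintype V] (j : ℕ) :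
    Submodule K (MonoidAlgebra K V) := Submodule.restrictScalars K ((AI K V) ^ j)

theorem mem_IJ {j : ℕ} {a : MonoidAlgebra K V} : a ∈ IJ K V j ↔ a ∈ (AI K V) ^ j := Iff.rfl

variable (hi : Function.Injective i) (hker : ∀ g, π g = 1 ↔ ∃ v, i v = g)
  (hπ : Function.Surjective π) (hcv : ∀ g w, i (cv g w) = g * i w * g⁻¹)

include hcv in
theorem sl_conj {z : MonoidAlgebra K G} (hz : Inv z) (g x : G) :
    sl i (g * x * g⁻¹) z = tw cv g (sl i x z) := by
  apply ext_coeff
  intro w
  rw [coeff_sl, coeff_tw, coeff_sl, hcv, ← hz g (g⁻¹ * i w * g⁻¹⁻¹ * x)]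
  congr 1
  group

include hi hker hπ hcv in
theorem step (j : ℕ) (e : MonoidAlgebra K G)
    (E : MonoidAlgebra K V →ₗ[K] MonoidAlgebra K V) (hE1 : ∀ a, E a ∈ IJ K V (j + 1))
    (hE2 : ∀ a ∈ IJ K V (j + 1), E a = a) (hE3 : ∀ g a, E (tw cv g a) = tw cv g (E a)) :
    Module.finrank K (UU i (IJ K V j) e) +
        Module.finrank K (WW cv π (IJ K V (j + 1)) (mapDomainRingHom K π e)) ≤
      Module.finrank K (UU i (IJ K V (j + 1)) e) +
        Module.finrank K (WW cv π (IJ K V j) (mapDomainRingHom K π e)) := by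
  classical
  choose s hs using hπ
  have hle : ∀ a ∈ IJ K V (j + 1), a ∈ IJ K V j := fun a ha =>
    Ideal.pow_le_pow_right (Nat.le_succ j) ha
  set P : MonoidAlgebra K V →ₗ[K] MonoidAlgebra K V := LinearMap.id - E with hP
  have hPa : ∀ a, P a = a - E a := fun a => rfl
  have hPP : ∀ a, P (P a) = P a := fun a => by
    rw [hPa (P a), hPa a, map_sub, hE2 _ (hE1 a), sub_self, sub_zero]
  have hP0 : ∀ a ∈ IJ K V (j + 1), P a = 0 := fun a ha => by rw [hPa, hE2 a ha, sub_self]
  have hPtw : ∀ g a, P (tw cv g a) = tw cv g (P a) := fun g a => by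
    rw [hPa, hPa, hE3, map_sub]
  -- the slice modulo `J'` depends only on the coset
  have hstar : ∀ z : MonoidAlgebra K G, (∀ g, sl i g z ∈ IJ K V j) → ∀ x x' : G, π x = π x' →
      P (sl i x z) = P (sl i x' z) := by
    intro z hz x x' hxx
    have h1 : π (x * x'⁻¹) = 1 := by rw [map_mul, map_inv, hxx, mul_inv_cancel]
    obtain ⟨v, hv⟩ := (hker _).1 h1
    have h2 : x = i v * x' := by rw [hv, inv_mul_cancel_right]
    have h3 : sl i x z = (single v⁻¹ 1 - 1) * sl i x' z + sl i x' z := by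
      rw [h2, sl_shift, sub_mul, one_mul, sub_add_cancel]
    have h4 : (single v⁻¹ 1 - 1 : MonoidAlgebra K V) * sl i x' z ∈ IJ K V (j + 1) := by
      rw [mem_IJ, pow_succ']
      refine Ideal.mul_mem_mul ?_ (hz x')
      rw [mem_AI, map_sub, aug_single, map_one, sub_self]
    rw [h3, map_add, hP0 _ h4, zero_add]
  set Θ : MonoidAlgebra K G →ₗ[K] (Γ → MonoidAlgebra K V) :=
    LinearMap.pi (fun η => P ∘ₗ sl i (s η)) with hΘ
  have hΘa : ∀ z η, Θ z η = P (sl i (s η) z) := fun z η => rfl
  set U := UU i (IJ K V j) e with hU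
  set R := U.map Θ with hR
  have hRW : R ≤ WW cv π (IJ K V j) (mapDomainRingHom K π e) := by
    rintro _ ⟨z, ⟨hz, hze, hzJ⟩, rfl⟩
    refine ⟨fun η => ?_, fun g η => ?_, fun η => ?_⟩
    · rw [hΘa, hPa]
      exact Submodule.sub_mem _ (hzJ _) (hle _ (hE1 _))
    · rw [hΘa, hΘa, ← hPtw, ← sl_conj i cv hcv hz]
      refine hstar z hzJ _ _ ?_
      rw [hs, map_mul, map_mul, map_inv, hs]
    · have h1 : ∀ ζ : Γ, (mapDomainRingHom K π e).coeff ζ • Θ z (η * ζ⁻¹) =
          ∑ x : G, if π x = ζ then e.coeff x • P (sl i (s η * x⁻¹) z) else 0 := by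
        intro ζ
        rw [coeff_phi, Finset.sum_smul]
        refine Finset.sum_congr rfl fun x _ => ?_
        by_cases h : π x = ζ
        · rw [if_pos h, if_pos h, hΘa]
          congr 1
          refine hstar z hzJ _ _ ?_
          rw [hs, map_mul, map_inv, hs, h]
        · rw [if_neg h, if_neg h, zero_smul]
      simp only [h1]
      rw [Finset.sum_comm]
      simp only [Finset.sum_ite_eq, Finset.mem_univ, if_true]
      rw [hΘa]
      conv_rhs => rw [← hze, sl_mul, map_sum]
      simp only [map_smul]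
  have hWW : WW cv π (IJ K V (j + 1)) (mapDomainRingHom K π e) ≤
      WW cv π (IJ K V j) (mapDomainRingHom K π e) := by
    rintro F ⟨hF, hF1, hF2⟩
    exact ⟨fun η => hle _ (hF η), hF1, hF2⟩
  have hinf : R ⊓ WW cv π (IJ K V (j + 1)) (mapDomainRingHom K π e) = ⊥ := by
    rw [eq_bot_iff]
    rintro F ⟨⟨z, hz, rfl⟩, hF, -, -⟩
    rw [Submodule.mem_bot]
    funext η
    have h1 := hP0 _ (hF η)
    rw [hΘa, hPP] at h1
    rw [hΘa, h1]
    rfl
  have h1 := Submodule.finrank_sup_add_finrank_inf_eq R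
    (WW cv π (IJ K V (j + 1)) (mapDomainRingHom K π e))
  rw [hinf, finrank_bot, add_zero] at h1
  have h2 : Module.finrank K (R ⊔ WW cv π (IJ K V (j + 1)) (mapDomainRingHom K π e) :
      Submodule K (Γ → MonoidAlgebra K V)) ≤
      Module.finrank K (WW cv π (IJ K V j) (mapDomainRingHom K π e)) :=
    Submodule.finrank_mono (sup_le hRW hWW)
  have h3 := LinearMap.finrank_range_add_finrank_ker (Θ.domRestrict U)
  have h4 : Module.finrank K (LinearMap.range (Θ.domRestrict U)) = Module.finrank K R := by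
    rw [LinearMap.range_domRestrict]
  have h5 : Module.finrank K (LinearMap.ker (Θ.domRestrict U)) ≤
      Module.finrank K (UU i (IJ K V (j + 1)) e) := by
    rw [← Submodule.finrank_map_subtype_eq U (LinearMap.ker (Θ.domRestrict U))]
    apply Submodule.finrank_mono
    rintro _ ⟨⟨z, hz, hze, hzJ⟩, hzk, rfl⟩
    refine ⟨hz, hze, fun g => ?_⟩
    have h6 : Θ z = 0 := hzk
    have h7 : P (sl i g z) = 0 := by
      rw [hstar z hzJ g (s (π g)) (hs _).symm, ← hΘa, h6]
      rfl
    rw [hPa, sub_eq_zero] at h7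
    change sl i g z ∈ _
    rw [h7]
    exact hE1 _
  omega

include hi hker hπ hcv in
theorem finrank_UU_le (p : ℕ) [hp : Fact p.Prime] [CharP K p] (hV : IsPGroup p V)
    (C : Subgroup G) (hC : ∀ c ∈ C, cv c = 1) (hm : (C.index : K) ≠ 0) (e : MonoidAlgebra K G) :
    Module.finrank K (UU i (IJ K V 1) e) ≤
      Module.finrank K (WW cv π (IJ K V 1) (mapDomainRingHom K π e)) := by
  obtain ⟨n, hn⟩ := AI_nilpotent (K := K) hV
  have key : ∀ k j : ℕ, n ≤ j + k → Module.finrank K (UU i (IJ K V j) e) ≤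
      Module.finrank K (WW cv π (IJ K V j) (mapDomainRingHom K π e)) := by
    intro k
    induction k with
    | zero =>
      intro j hj
      have h1 : (AI K V) ^ j = ⊥ := by
        rw [eq_bot_iff, ← hn]
        exact Ideal.pow_le_pow_right (by omega)
      have h2 : UU i (IJ K V j) e = ⊥ := by
        rw [eq_bot_iff]
        rintro z ⟨-, -, hz⟩
        rw [Submodule.mem_bot]
        apply ext_coeff
        intro g
        have h3 := hz g
        rw [mem_IJ, h1, Ideal.mem_bot] at h3
        have h4 := congrArg (fun y => y.coeff (1 : V)) h3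
        simp only [coeff_sl, map_one, one_mul] at h4
        rw [h4]
        rfl
      rw [h2, finrank_bot]
      exact Nat.zero_le _
    | succ k ih =>
      intro j hj
      obtain ⟨E, hE1, hE2, hE3⟩ := exists_proj cv C hC hm (IJ K V (j + 1))
        (fun g a ha => tw_mem_pow cv g (j + 1) a ha)
      have h1 := step i cv π hi hker hπ hcv j e E hE1 hE2 hE3
      have h2 := ih (j + 1) (by omega)
      omega
  exact key n 1 (by omega)

end UW

end H91.Nav
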