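import Pool.Agent.H91.Nav.Lift

/-!
# Lifting central idempotents, and the dimension formula over a perfect field of
characteristic `p`
-/

set_option autoImplicit false
set_option linter.unusedSectionVars false

namespace H91.Nav

open MonoidAlgebra

section Idem

variable {O : Type*} [CommRing O] [IsDomain O] {p : ℕ} [hp : Fact p.Prime]
  {Γ : Type*} [Group Γ] [Fintype Γ]

/-- divisibility of all coefficients -/
def Dv (c : O) (x : MonoidAlgebra O Γ) : Prop := ∀ g, c ∣ x.coeff g

theorem dv_iff {c : O} {x : MonoidAlgebra O Γ} : Dv c x ↔ ∃ y, x = c • y := by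
  constructor
  · intro h
    choose f hf using h
    refine ⟨mk f, ext_coeff fun g => ?_⟩
    rw [coeff_smul_apply, coeff_mk, hf, smul_eq_mul]
  · rintro ⟨y, rfl⟩ g
    rw [coeff_smul_apply]
    exact Dvd.intro _ rfl

theorem Dv.add {c : O} {x y : MonoidAlgebra O Γ} (hx : Dv c x) (hy : Dv c y) : Dv c (x + y) := by
  intro g
  rw [coeff_add, Finsupp.add_apply]
  exact dvd_add (hx g) (hy g)

theorem Dv.sub {c : O} {x y : MonoidAlgebra O Γ} (hx : Dv c x) (hy : Dv c y) : Dv c (x - y) := by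
  intro g
  rw [coeff_sub, Finsupp.sub_apply]
  exact dvd_sub (hx g) (hy g)

theorem Dv.mul_right {c : O} {x : MonoidAlgebra O Γ} (hx : Dv c x) (y : MonoidAlgebra O Γ) :
    Dv c (x * y) := by
  obtain ⟨z, rfl⟩ := dv_iff.1 hx
  exact dv_iff.2 ⟨z * y, by rw [smul_mul_assoc]⟩

theorem Dv.mul_left {c : O} {x : MonoidAlgebra O Γ} (hx : Dv c x) (y : MonoidAlgebra O Γ) :
    Dv c (y * x) := by
  obtain ⟨z, rfl⟩ := dv_iff.1 hx
  exact dv_iff.2 ⟨y * z, by rw [mul_smul_comm]⟩

/-- the commutative ring of conjugation invariant elements supported on `H` -/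
def CR (O : Type*) [CommRing O] {Γ : Type*} [Group Γ] [Fintype Γ] (H : Subgroup Γ) :
    Subring (MonoidAlgebra O Γ) where
  carrier := {x | Inv x ∧ Supp H x}
  mul_mem' := by
    rintro a b ⟨ha, ha'⟩ ⟨hb, hb'⟩
    refine ⟨inv_of_cj fun u => ?_, ha'.mul hb'⟩
    rw [cj_mul, ha.cj, hb.cj]
  one_mem' := by
    classical
    refine ⟨fun u g => ?_, fun g hg => ?_⟩
    · rw [one_def, coeff_single, Finsupp.single_apply, Finsupp.single_apply]
      refine if_congr ?_ rfl rfl
      constructor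
      · intro h
        rw [eq_comm, mul_inv_eq_one, mul_eq_left] at h
        exact h.symm
      · rintro rfl
        simp
    · rw [one_def, coeff_single, Finsupp.single_apply, if_neg]
      rintro rfl
      exact hg H.one_mem
  add_mem' := by
    rintro a b ⟨ha, ha1⟩ ⟨hb, hb1⟩
    refine ⟨fun u g => ?_, fun g hg => ?_⟩
    · rw [coeff_add, Finsupp.add_apply, Finsupp.add_apply, ha u g, hb u g]
    · rw [coeff_add, Finsupp.add_apply, ha1 g hg, hb1 g hg, add_zero]
  zero_mem' := ⟨fun _ _ => by simp, fun _ _ => by simp⟩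
  neg_mem' := by
    rintro a ⟨ha, ha1⟩
    refine ⟨fun u g => ?_, fun g hg => ?_⟩
    · rw [coeff_neg, Finsupp.neg_apply, Finsupp.neg_apply, ha u g]
    · rw [coeff_neg, Finsupp.neg_apply, ha1 g hg, neg_zero]

noncomputable instance (H : Subgroup Γ) : CommRing (CR O H) :=
  { (inferInstance : Ring (CR O H)) with
    mul_comm := by
      rintro ⟨a, ha, ha'⟩ ⟨b, hb, hb'⟩
      apply Subtype.ext
      have : a ∈ Subalgebra.center O (MonoidAlgebra O Γ) := mem_center_iff.2 ha
      exact ((Subalgebra.mem_center_iff.1 this) b).symm }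

theorem CR_dvd {H : Subgroup Γ} {n : ℕ} {x : CR O H} (hp0 : (p : O) ≠ 0)
    (h : Dv ((p : O) ^ n) (x : MonoidAlgebra O Γ)) : ((p : CR O H)) ^ n ∣ x := by
  obtain ⟨x, hx, hx'⟩ := x
  obtain ⟨y, rfl⟩ := dv_iff.1 h
  have hpn : (p : O) ^ n ≠ 0 := pow_ne_zero _ hp0
  refine ⟨⟨y, fun u g => ?_, fun g hg => ?_⟩, ?_⟩
  · have := hx u g
    simp only [coeff_smul_apply, smul_eq_mul] at this
    exact mul_left_cancel₀ hpn this
  · have := hx' g hg
    simp only [coeff_smul_apply, smul_eq_mul] at this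
    exact (mul_eq_zero.1 this).resolve_left hpn
  · apply Subtype.ext
    change ((p : O) ^ n) • y = ((p : MonoidAlgebra O Γ)) ^ n * y
    rw [Algebra.smul_def, map_pow, map_natCast]

theorem dvd_CR {H : Subgroup Γ} {n : ℕ} {x : CR O H}
    (h : ((p : CR O H)) ^ n ∣ x) : Dv ((p : O) ^ n) (x : MonoidAlgebra O Γ) := by
  obtain ⟨y, rfl⟩ := h
  rw [dv_iff]
  refine ⟨y, ?_⟩
  change ((p : MonoidAlgebra O Γ)) ^ n * y = ((p : O) ^ n) • (y : MonoidAlgebra O Γ)
  rw [Algebra.smul_def, map_pow, map_natCast]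

variable [IsAdicComplete (Ideal.span {(p : O)}) O]

theorem smodEq_iff (n : ℕ) (x y : O) :
    x ≡ y [SMOD ((Ideal.span {(p : O)}) ^ n • ⊤ : Submodule O O)] ↔ (p : O) ^ n ∣ x - y := by
  rw [SModEq.sub_mem, smul_eq_mul, Ideal.mul_top, Ideal.span_singleton_pow,
    Ideal.mem_span_singleton]

theorem exists_limit (f : ℕ → O) (h : ∀ n, (p : O) ^ (n + 1) ∣ f (n + 1) - f n) :
    ∃ L, ∀ n, (p : O) ^ n ∣ f n - L := by
  have h1 : ∀ {m n}, m ≤ n → (p : O) ^ m ∣ f m - f n := by
    intro m n hmn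
    induction n, hmn using Nat.le_induction with
    | base => simp
    | succ n hn ih =>
      have h2 : (p : O) ^ m ∣ f (n + 1) - f n :=
        (pow_dvd_pow _ (by omega)).trans (h n)
      have := dvd_sub ih h2
      convert this using 1
      ring
  obtain ⟨L, hL⟩ := IsPrecomplete.prec (I := Ideal.span {(p : O)}) (M := O) inferInstance
    (f := f) (fun hmn => (smodEq_iff _ _ _).2 (h1 hmn))
  exact ⟨L, fun n => (smodEq_iff _ _ _).1 (hL n)⟩

theorem eq_of_dvd {x y : O} (h : ∀ n, (p : O) ^ n ∣ x - y) : x = y := by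
  rw [← sub_eq_zero]
  refine IsHausdorff.haus (I := Ideal.span {(p : O)}) (M := O) inferInstance _ fun n => ?_
  rw [smodEq_iff, sub_zero]
  exact h n

/-- Lifting of central idempotents supported on `H`. -/
theorem exists_lift_idem {K : Type*} [Field K] (ρ : O →+* K) (hρ : Function.Surjective ρ)
    (hp0 : (p : O) ≠ 0) (hker : ∀ x, ρ x = 0 ↔ (p : O) ∣ x) (H : Subgroup Γ)
    {ε : MonoidAlgebra K Γ} (hε : Inv ε) (hεH : Supp H ε) (hεε : ε * ε = ε) :
    ∃ ε' : MonoidAlgebra O Γ, Inv ε' ∧ Supp H ε' ∧ ε' * ε' = ε' ∧ red ρ ε' = ε := by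
  classical
  obtain ⟨s, hs0, hs⟩ := exists_sec ρ hρ
  set z₀ : CR O H := ⟨mk (fun g => s (ε.coeff g)),
    fun u g => by rw [coeff_mk, coeff_mk, hε u g],
    fun g hg => by rw [coeff_mk, hεH g hg, hs0]⟩ with hz₀
  have hred : red ρ (z₀ : MonoidAlgebra O Γ) = ε := by
    apply ext_coeff
    intro g
    rw [coeff_red, hz₀]
    change ρ ((mk (fun g => s (ε.coeff g))).coeff g) = _
    rw [coeff_mk, hs]
  have hdv1 : ∀ x : MonoidAlgebra O Γ, red ρ x = 0 → Dv (p : O) x := by
    intro x hx g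
    rw [← hker, ← coeff_red, hx]
    rfl
  have hpow : ∀ k : ℕ, ε ^ (k + 1) = ε := by
    intro k
    induction k with
    | zero => rw [zero_add, pow_one]
    | succ k ih => rw [pow_succ, ih, hεε]
  -- `z₀ ^ p ≡ z₀` and `z₀ ^ 2 ≡ z₀` modulo `p`
  have h2 : (p : CR O H) ∣ z₀ ^ p - z₀ := by
    have : Dv ((p : O) ^ 1) ((z₀ ^ p - z₀ : CR O H) : MonoidAlgebra O Γ) := by
      rw [pow_one]
      apply hdv1
      push_cast
      rw [map_sub, map_pow, hred]
      obtain ⟨k, hk⟩ := Nat.exists_eq_succ_of_ne_zero hp.out.ne_zero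
      rw [hk, Nat.succ_eq_add_one, hpow, sub_self]
    simpa using CR_dvd hp0 this
  have h3 : (p : CR O H) ∣ z₀ ^ 2 - z₀ := by
    have : Dv ((p : O) ^ 1) ((z₀ ^ 2 - z₀ : CR O H) : MonoidAlgebra O Γ) := by
      rw [pow_one]
      apply hdv1
      push_cast
      rw [map_sub, map_pow, hred, pow_two, hεε, sub_self]
    simpa using CR_dvd hp0 this
  have h4 : ∀ n, (p : CR O H) ^ (n + 1) ∣ z₀ ^ p ^ (n + 1) - z₀ ^ p ^ n := by
    intro n
    have := dvd_sub_pow_of_dvd_sub h2 n
    rwa [← pow_mul, ← pow_succ'] at this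
  have h5 : ∀ n, (p : CR O H) ^ (n + 1) ∣ (z₀ ^ p ^ n) ^ 2 - z₀ ^ p ^ n := by
    intro n
    have := dvd_sub_pow_of_dvd_sub h3 n
    rwa [← pow_mul, mul_comm 2, pow_mul] at this
  set z : ℕ → MonoidAlgebra O Γ := fun n => ((z₀ ^ p ^ n : CR O H) : MonoidAlgebra O Γ) with hz
  have hzI : ∀ n, Inv (z n) := fun n => (z₀ ^ p ^ n : CR O H).2.1
  have hzS : ∀ n, Supp H (z n) := fun n => (z₀ ^ p ^ n : CR O H).2.2
  have hzn : ∀ n, Dv ((p : O) ^ (n + 1)) (z (n + 1) - z n) := fun n => dvd_CR (h4 n)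
  have hz2 : ∀ n, Dv ((p : O) ^ (n + 1)) (z n * z n - z n) := fun n => by
    have := dvd_CR (h5 n)
    push_cast at this
    rw [pow_two] at this
    exact this
  have hlim : ∀ g, ∃ L, ∀ n, (p : O) ^ n ∣ (z n).coeff g - L := by
    intro g
    refine exists_limit _ fun n => ?_
    have := hzn n g
    rwa [coeff_sub, Finsupp.sub_apply] at this
  choose L hL using hlim
  have hLz : ∀ n, Dv ((p : O) ^ n) (z n - mk L) := fun n g => by
    rw [coeff_sub, Finsupp.sub_apply, coeff_mk]
    exact hL g n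
  have heq : ∀ x y : MonoidAlgebra O Γ, (∀ n, Dv ((p : O) ^ n) (x - y)) → x = y := by
    intro x y h
    apply ext_coeff
    intro g
    refine eq_of_dvd (p := p) fun n => ?_
    have := h n g
    rwa [coeff_sub, Finsupp.sub_apply] at this
  refine ⟨mk L, fun u g => ?_, fun g hg => ?_, ?_, ?_⟩
  · refine eq_of_dvd (p := p) fun n => ?_
    have h6 := dvd_sub (hLz n g) (hLz n (u * g * u⁻¹))
    simp only [coeff_sub, Finsupp.sub_apply, hzI n u g] at h6
    convert h6 using 1
    ring
  · refine eq_of_dvd (p := p) fun n => ?_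
    have h6 := hLz n g
    rw [coeff_sub, Finsupp.sub_apply, hzS n g hg] at h6
    have := (dvd_neg.2 h6)
    convert this using 1
    ring
  · refine heq _ _ fun n => ?_
    have h6 : mk L * mk L - mk L = (z n - mk L) - (z n - mk L) * z n - mk L * (z n - mk L)
        + (z n * z n - z n) := by
      noncomm_ring
    rw [h6]
    have h7 : Dv ((p : O) ^ n) (z n * z n - z n) := fun g =>
      (pow_dvd_pow _ (Nat.le_succ n)).trans (hz2 n g)
    exact (((hLz n).sub ((hLz n).mul_right _)).sub ((hLz n).mul_left _)).add h7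
  · apply ext_coeff
    intro g
    have h6 := hLz 1 g
    rw [pow_one, ← hker, coeff_sub, Finsupp.sub_apply, map_sub, sub_eq_zero] at h6
    rw [coeff_red, ← h6, ← coeff_red]
    have h7 : red ρ (z 1) = ε := by
      rw [hz]
      push_cast
      rw [map_pow, hred]
      obtain ⟨k, hk⟩ := Nat.exists_eq_succ_of_ne_zero (pow_ne_zero 1 hp.out.ne_zero)
      rw [hk, Nat.succ_eq_add_one, hpow]
    rw [h7]

end Idem

section Main

variable {Γ : Type*} [Group Γ] [Fintype Γ]

theorem witt_charZero (p : ℕ) [hp : Fact p.Prime] (K : Type*) [Field K] [CharP K p]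
    [PerfectRing K p] : CharZero (WittVector p K) := by
  refine charZero_of_inj_zero fun n => ?_
  induction n using Nat.strong_induction_on with
  | _ n ih =>
    intro h
    by_contra hn
    have h1 : (WittVector.constantCoeff (p := p) (R := K)) (n : WittVector p K) = 0 := by
      rw [h, map_zero]
    rw [map_natCast, CharP.cast_eq_zero_iff K p] at h1
    obtain ⟨m, rfl⟩ := h1
    rw [Nat.cast_mul] at h
    have h2 := (mul_eq_zero.1 h).resolve_left (WittVector.p_nonzero (p := p) (R := K))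
    have hm : m ≠ 0 := by
      rintro rfl
      exact hn (mul_zero p)
    have h3 : m < p * m := by
      have := hp.out.two_le
      nlinarith [Nat.pos_of_ne_zero hm]
    exact hm (ih m h3 h2)

/-- The dimension formula in characteristic `p`. -/
theorem finrank_char_p (p : ℕ) [hp : Fact p.Prime] {K : Type*} [Field K] [CharP K p]
    [PerfectRing K p] (H : Subgroup Γ) [H.Normal] {ε : MonoidAlgebra K Γ} (hε : Inv ε)
    (hεH : Supp H ε) (hεε : ε * ε = ε) :
    Nat.card H * Module.finrank K (SS H ε) = Nat.card Γ * Module.finrank K (AA H ε) := by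
  have hcz : CharZero (WittVector p K) := witt_charZero p K
  set ρ : WittVector p K →+* K := WittVector.constantCoeff with hρd
  have hρ : Function.Surjective ρ := WittVector.constantCoeff_surjective p
  have hp0 : ((p : ℕ) : WittVector p K) ≠ 0 := WittVector.p_nonzero (p := p) (R := K)
  have hker : ∀ x, ρ x = 0 ↔ ((p : ℕ) : WittVector p K) ∣ x := by
    intro x
    rw [← RingHom.mem_ker, hρd, WittVector.ker_constantCoeff, Ideal.mem_span_singleton]
  obtain ⟨ε', h1, h2, h3, h4⟩ := exists_lift_idem (p := p) ρ hρ hp0 hker H hε hεH hεε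
  have e1 := finrank_SS_res ρ hρ hp0 hker H h1 h3
  have e2 := finrank_AA_res ρ hρ hp0 hker H h1 h2 h3
  rw [h4] at e1 e2
  rw [← e1, ← e2, finrank_SS_frac (F := FractionRing (WittVector p K)),
    finrank_AA_frac (F := FractionRing (WittVector p K))]
  haveI : CharZero (FractionRing (WittVector p K)) :=
    charZero_of_injective_algebraMap (IsFractionRing.injective (WittVector p K) _)
  refine finrank_char_zero H (fun u g => ?_) (fun g hg => ?_) ?_
  · rw [coeff_red, coeff_red, h1 u g]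
  · rw [coeff_red, h2 g hg, map_zero]
  · rw [← map_mul, h3]

end Main

end H91.Nav
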