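import Pool.Agent.H91.Nav.Trace

/-!
# Lifting to characteristic zero
-/

set_option autoImplicit false
set_option linter.unusedSectionVars false

namespace H91.Nav

open MonoidAlgebra

section Red

variable {O L : Type*} [CommRing O] [Field L] {Γ : Type*} [Group Γ] [Fintype Γ] (ρ : O →+* L)

/-- change of coefficients -/
noncomputable def red : MonoidAlgebra O Γ →+* MonoidAlgebra L Γ := mapRingHom Γ ρ

theorem coeff_red (x : MonoidAlgebra O Γ) (g : Γ) : (red ρ x).coeff g = ρ (x.coeff g) := rfl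

theorem red_smul (c : O) (x : MonoidAlgebra O Γ) : red ρ (c • x) = ρ c • red ρ x := by
  apply ext_coeff
  intro g
  rw [coeff_red, coeff_smul_apply, coeff_smul_apply, coeff_red, smul_eq_mul, map_mul, smul_eq_mul]

theorem red_inj (hρ : Function.Injective ρ) {x y : MonoidAlgebra O Γ} (h : red ρ x = red ρ y) :
    x = y := by
  apply ext_coeff
  intro g
  apply hρ
  rw [← coeff_red, ← coeff_red, h]

theorem red_cj (u : Γ) (x : MonoidAlgebra O Γ) : red ρ (cj u x) = cj u (red ρ x) := by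
  apply ext_coeff
  intro g
  rw [coeff_red, coeff_cj, coeff_cj, coeff_red]

/-- comparison of ranks -/
theorem finrank_red [IsDomain O] [IsPrincipalIdealRing O]
    (M : Submodule O (MonoidAlgebra O Γ)) (M' : Submodule L (MonoidAlgebra L Γ))
    (hA : ∀ (n : ℕ) (c : Fin n → L), ∃ d : L, d ≠ 0 ∧ ∃ c' : Fin n → O, ∀ i, ρ (c' i) = d * c i)
    (h1 : ∀ x ∈ M, red ρ x ∈ M')
    (h2 : ∀ y ∈ M', ∃ x ∈ M, ∃ c : L, c ≠ 0 ∧ red ρ x = c • y)
    (h3 : ∀ x ∈ M, red ρ x = 0 → ∃ c : O, ρ c = 0 ∧ ∃ y ∈ M, x = c • y) :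
    Module.finrank O M = Module.finrank L M' := by
  classical
  obtain ⟨n, b⟩ := Submodule.basisOfPid (Module.Basis.ofRepr (coeffLinearEquiv (M := Γ) O)) M
  rw [Module.finrank_eq_card_basis b]
  set v : Fin n → M' := fun i => ⟨red ρ (b i), h1 _ (b i).2⟩ with hv
  have hli : LinearIndependent L v := by
    rw [Fintype.linearIndependent_iff]
    intro c hc i
    obtain ⟨d, hd, c', hc'⟩ := hA n c
    have h4 : red ρ ((∑ i, c' i • b i : M) : MonoidAlgebra O Γ) = 0 := by
      have h5 := congrArg (fun z : M' => d • (z : MonoidAlgebra L Γ)) hc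
      simp only [Submodule.coe_zero, smul_zero, Submodule.coe_sum, Submodule.coe_smul,
        Finset.smul_sum, smul_smul] at h5
      rw [Submodule.coe_sum, map_sum, ← h5]
      refine Finset.sum_congr rfl fun i _ => ?_
      rw [Submodule.coe_smul, red_smul, hc']
    obtain ⟨e, he, y, hy, hxy⟩ := h3 _ (∑ i, c' i • b i : M).2 h4
    have h6 : (∑ i, c' i • b i : M) = e • (⟨y, hy⟩ : M) := Subtype.ext hxy
    have h7 := congrArg (fun z => b.repr z i) h6
    simp only [map_sum, map_smul, Module.Basis.repr_self, Finsupp.smul_single, smul_eq_mul,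
      mul_one, Finsupp.coe_finsetSum, Finset.sum_apply, Finsupp.smul_apply] at h7
    rw [Finset.sum_eq_single i (fun j _ hj => by rw [Finsupp.single_apply, if_neg hj])
      (fun h => absurd (Finset.mem_univ i) h), Finsupp.single_eq_same] at h7
    have h8 := hc' i
    rw [h7, map_mul, he, zero_mul] at h8
    exact (mul_eq_zero.1 h8.symm).resolve_left hd
  have hsp : ⊤ ≤ Submodule.span L (Set.range v) := by
    rintro ⟨y, hy⟩ -
    obtain ⟨x, hx, c, hc, hxc⟩ := h2 y hy
    have h4 : (⟨y, hy⟩ : M') = c⁻¹ • ∑ i, ρ (b.repr ⟨x, hx⟩ i) • v i := by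
      apply Subtype.ext
      rw [Submodule.coe_smul, Submodule.coe_sum]
      have h5 := congrArg (fun z : M => red ρ (z : MonoidAlgebra O Γ)) (b.sum_repr ⟨x, hx⟩)
      simp only [Submodule.coe_sum, map_sum, Submodule.coe_smul, red_smul] at h5
      simp only [Submodule.coe_smul, hv]
      rw [h5, hxc, smul_smul, inv_mul_cancel₀ hc, one_smul]
    rw [h4]
    refine Submodule.smul_mem _ _ (Submodule.sum_mem _ fun i _ => Submodule.smul_mem _ _ ?_)
    exact Submodule.subset_span ⟨i, rfl⟩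
  rw [Module.finrank_eq_card_basis (Module.Basis.mk hli hsp)]

end Red

/-- a lift of the coefficients by a fixed section -/
theorem exists_sec {O K : Type*} [CommRing O] [Field K] (ρ : O →+* K)
    (hρ : Function.Surjective ρ) : ∃ s : K → O, s 0 = 0 ∧ ∀ x, ρ (s x) = x := by
  classical
  choose s hs using hρ
  refine ⟨fun x => if x = 0 then 0 else s x, if_pos rfl, fun x => ?_⟩
  change ρ (if x = 0 then 0 else s x) = x
  by_cases h : x = 0
  · rw [if_pos h, h, map_zero]
  · rw [if_neg h, hs]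

section Frac

variable {O F : Type*} [CommRing O] [IsDomain O] [IsPrincipalIdealRing O] [Field F] [Algebra O F]
  [IsFractionRing O F] {Γ : Type*} [Group Γ] [Fintype Γ]

theorem frac_clear (n : ℕ) (c : Fin n → F) :
    ∃ d : F, d ≠ 0 ∧ ∃ c' : Fin n → O, ∀ i, algebraMap O F (c' i) = d * c i := by
  classical
  obtain ⟨b, hb⟩ := IsLocalization.exist_integer_multiples_of_finite (nonZeroDivisors O) c
  refine ⟨algebraMap O F b, ?_, ?_⟩
  · intro h
    rw [map_eq_zero_iff _ (IsFractionRing.injective O F)] at h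
    exact nonZeroDivisors.coe_ne_zero b h
  · choose c' hc' using hb
    refine ⟨c', fun i => ?_⟩
    rw [hc', Algebra.smul_def]

theorem frac_lift (y : MonoidAlgebra F Γ) : ∃ x : MonoidAlgebra O Γ, ∃ d : F, d ≠ 0 ∧
    red (algebraMap O F) x = d • y := by
  classical
  obtain ⟨b, hb⟩ := IsLocalization.exist_integer_multiples_of_finite (nonZeroDivisors O)
    (fun g : Γ => y.coeff g)
  choose c' hc' using hb
  refine ⟨mk c', algebraMap O F b, ?_, ?_⟩
  · intro h
    rw [map_eq_zero_iff _ (IsFractionRing.injective O F)] at h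
    exact nonZeroDivisors.coe_ne_zero b h
  · apply ext_coeff
    intro g
    rw [coeff_red, coeff_mk, hc', coeff_smul_apply, Algebra.smul_def, smul_eq_mul]

theorem finrank_SS_frac (H : Subgroup Γ) (ε : MonoidAlgebra O Γ) :
    Module.finrank O (SS H ε) = Module.finrank F (SS H (red (algebraMap O F) ε)) := by
  have hinj := IsFractionRing.injective O F
  refine finrank_red (algebraMap O F) _ _ frac_clear ?_ ?_ ?_
  · rintro x ⟨hx, hx'⟩
    refine ⟨fun h hh g => ?_, ?_⟩
    · rw [coeff_red, coeff_red, hx h hh g]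
    · rw [← map_mul, hx']
  · rintro y ⟨hy, hy'⟩
    obtain ⟨x, d, hd, hx⟩ := frac_lift (O := O) y
    refine ⟨x, ⟨fun h hh g => ?_, ?_⟩, d, hd, hx⟩
    · apply hinj
      rw [← coeff_red, ← coeff_red, hx, coeff_smul_apply, coeff_smul_apply, hy h hh g]
    · apply red_inj _ hinj
      rw [map_mul, hx, smul_mul_assoc, hy']
  · intro x hx h
    refine ⟨0, map_zero _, x, hx, ?_⟩
    rw [zero_smul]
    apply red_inj _ hinj
    rw [h, map_zero]

theorem finrank_AA_frac (H : Subgroup Γ) (ε : MonoidAlgebra O Γ) :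
    Module.finrank O (AA H ε) = Module.finrank F (AA H (red (algebraMap O F) ε)) := by
  have hinj := IsFractionRing.injective O F
  refine finrank_red (algebraMap O F) _ _ frac_clear ?_ ?_ ?_
  · rintro x ⟨hx, hx1, hx'⟩
    refine ⟨fun u g => ?_, fun g hg => ?_, ?_⟩
    · rw [coeff_red, coeff_red, hx u g]
    · rw [coeff_red, hx1 g hg, map_zero]
    · rw [← map_mul, hx']
  · rintro y ⟨hy, hy1, hy'⟩
    obtain ⟨x, d, hd, hx⟩ := frac_lift (O := O) y
    refine ⟨x, ⟨fun u g => ?_, fun g hg => ?_, ?_⟩, d, hd, hx⟩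
    · apply hinj
      rw [← coeff_red, ← coeff_red, hx, coeff_smul_apply, coeff_smul_apply, hy u g]
    · apply hinj
      rw [← coeff_red, hx, coeff_smul_apply, hy1 g hg, smul_zero, map_zero]
    · apply red_inj _ hinj
      rw [map_mul, hx, smul_mul_assoc, hy']
  · intro x hx h
    refine ⟨0, map_zero _, x, hx, ?_⟩
    rw [zero_smul]
    apply red_inj _ hinj
    rw [h, map_zero]

end Frac

section Residue

variable {O K : Type*} [CommRing O] [IsDomain O] [IsPrincipalIdealRing O] [Field K]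
  {Γ : Type*} [Group Γ] [Fintype Γ] (ρ : O →+* K) {π : O}

theorem res_clear (hρ : Function.Surjective ρ) (n : ℕ) (c : Fin n → K) :
    ∃ d : K, d ≠ 0 ∧ ∃ c' : Fin n → O, ∀ i, ρ (c' i) = d * c i := by
  choose s hs using hρ
  exact ⟨1, one_ne_zero, fun i => s (c i), fun i => by rw [hs, one_mul]⟩

theorem res_div (hker : ∀ x, ρ x = 0 ↔ π ∣ x) {x : MonoidAlgebra O Γ}
    (hx : red ρ x = 0) : ∃ y : MonoidAlgebra O Γ, x = π • y := by
  have : ∀ g, π ∣ x.coeff g := fun g => by
    rw [← hker, ← coeff_red, hx]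
    rfl
  choose c hc using this
  refine ⟨mk c, ext_coeff fun g => ?_⟩
  rw [hc, coeff_smul_apply, coeff_mk, smul_eq_mul]

theorem smul_inj (hπ0 : π ≠ 0) {x y : MonoidAlgebra O Γ} (h : π • x = π • y) : x = y := by
  apply ext_coeff
  intro g
  have := congrArg (fun z => z.coeff g) h
  simp only [coeff_smul_apply, smul_eq_mul] at this
  exact mul_left_cancel₀ hπ0 this

theorem finrank_SS_res (hρ : Function.Surjective ρ) (hπ0 : π ≠ 0) (hker : ∀ x, ρ x = 0 ↔ π ∣ x)
    (H : Subgroup Γ) {ε : MonoidAlgebra O Γ} (hε : Inv ε) (hεε : ε * ε = ε) :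
    Module.finrank O (SS H ε) = Module.finrank K (SS H (red ρ ε)) := by
  refine finrank_red ρ _ _ (res_clear ρ hρ) ?_ ?_ ?_
  · rintro x ⟨hx, hx'⟩
    refine ⟨fun h hh g => ?_, ?_⟩
    · rw [coeff_red, coeff_red, hx h hh g]
    · rw [← map_mul, hx']
  · rintro y ⟨hy, hy'⟩
    obtain ⟨s, hs0, hs⟩ := exists_sec ρ hρ
    refine ⟨mk (fun g => s (y.coeff g)) * ε, ⟨?_, ?_⟩, 1, one_ne_zero, ?_⟩
    · intro h hh
      rw [← comm_single_iff, ← cj_eq_iff, cj_mul, hε.cj]
      congr 1
      rw [cj_eq_iff, comm_single_iff]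
      intro g
      rw [coeff_mk, coeff_mk, hy h hh g]
    · rw [mul_assoc, hεε]
    · rw [map_mul, one_smul]
      have : red ρ (mk (fun g => s (y.coeff g))) = y := by
        apply ext_coeff
        intro g
        rw [coeff_red, coeff_mk, hs]
      rw [this, hy']
  · rintro x ⟨hx, hx'⟩ h
    obtain ⟨y, rfl⟩ := res_div ρ hker h
    refine ⟨π, (hker π).2 dvd_rfl, y, ⟨fun h hh g => ?_, ?_⟩, rfl⟩
    · have := hx h hh g
      rw [coeff_smul_apply, coeff_smul_apply, smul_eq_mul, smul_eq_mul] at this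
      exact mul_left_cancel₀ hπ0 this
    · apply smul_inj hπ0
      rw [← smul_mul_assoc, hx']

theorem finrank_AA_res (hρ : Function.Surjective ρ) (hπ0 : π ≠ 0) (hker : ∀ x, ρ x = 0 ↔ π ∣ x)
    (H : Subgroup Γ) {ε : MonoidAlgebra O Γ} (hε : Inv ε) (hεH : Supp H ε) (hεε : ε * ε = ε) :
    Module.finrank O (AA H ε) = Module.finrank K (AA H (red ρ ε)) := by
  refine finrank_red ρ _ _ (res_clear ρ hρ) ?_ ?_ ?_
  · rintro x ⟨hx, hx1, hx'⟩
    refine ⟨fun u g => ?_, fun g hg => ?_, ?_⟩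
    · rw [coeff_red, coeff_red, hx u g]
    · rw [coeff_red, hx1 g hg, map_zero]
    · rw [← map_mul, hx']
  · rintro y ⟨hy, hy1, hy'⟩
    obtain ⟨s, hs0, hs⟩ := exists_sec ρ hρ
    refine ⟨mk (fun g => s (y.coeff g)) * ε, ⟨?_, ?_, ?_⟩, 1, one_ne_zero, ?_⟩
    · apply inv_of_cj
      intro u
      rw [cj_mul, hε.cj]
      congr 1
      rw [cj_eq_iff, comm_single_iff]
      intro g
      rw [coeff_mk, coeff_mk, hy u g]
    · refine Supp.mul (fun g hg => ?_) hεH
      rw [coeff_mk, hy1 g hg, hs0]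
    · rw [mul_assoc, hεε]
    · rw [map_mul, one_smul]
      have : red ρ (mk (fun g => s (y.coeff g))) = y := by
        apply ext_coeff
        intro g
        rw [coeff_red, coeff_mk, hs]
      rw [this, hy']
  · rintro x ⟨hx, hx1, hx'⟩ h
    obtain ⟨y, rfl⟩ := res_div ρ hker h
    refine ⟨π, (hker π).2 dvd_rfl, y, ⟨fun u g => ?_, fun g hg => ?_, ?_⟩, rfl⟩
    · have := hx u g
      rw [coeff_smul_apply, coeff_smul_apply, smul_eq_mul, smul_eq_mul] at this
      exact mul_left_cancel₀ hπ0 this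
    · have := hx1 g hg
      rw [coeff_smul_apply, smul_eq_mul] at this
      exact (mul_eq_zero.1 this).resolve_left hπ0
    · apply smul_inj hπ0
      rw [← smul_mul_assoc, hx']

end Residue

end H91.Nav
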