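import Pool.Agent.H91.Nav.LemT

/-!
# Principal block idempotents
-/

set_option autoImplicit false
set_option linter.unusedSectionVars false

namespace H91.Nav

open MonoidAlgebra

section Aug

variable {R : Type*} [CommRing R] {G : Type*} [Group G] [Fintype G]

/-- the augmentation -/
noncomputable def aug : MonoidAlgebra R G →+* R where
  toFun x := ∑ g, x.coeff g
  map_one' := by
    classical
    rw [one_def]
    simp only [coeff_single, Finsupp.single_apply]
    simp
  map_mul' x y := by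
    simp only [coeff_mul_l]
    rw [Finset.sum_comm, Finset.sum_mul]
    refine Finset.sum_congr rfl fun h _ => ?_
    rw [← Finset.mul_sum]
    congr 1
    exact Fintype.sum_equiv (Equiv.mulLeft h⁻¹) _ _ (fun g => rfl)
  map_zero' := by simp
  map_add' x y := by
    simp only [coeff_add, Finsupp.add_apply]
    rw [Finset.sum_add_distrib]

theorem aug_apply (x : MonoidAlgebra R G) : aug x = ∑ g, x.coeff g := rfl

theorem aug_single (g : G) (r : R) : aug (single g r : MonoidAlgebra R G) = r := by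
  classical
  rw [aug_apply]
  simp only [coeff_single, Finsupp.single_apply]
  simp

theorem Inv.mul {x y : MonoidAlgebra R G} (hx : Inv x) (hy : Inv y) : Inv (x * y) :=
  inv_of_cj fun u => by rw [cj_mul, hx.cj, hy.cj]

theorem Inv.comm {x : MonoidAlgebra R G} (hx : Inv x) (y : MonoidAlgebra R G) :
    x * y = y * x := by
  have : x ∈ Subalgebra.center R (MonoidAlgebra R G) := mem_center_iff.2 hx
  exact ((Subalgebra.mem_center_iff.1 this) y).symm

theorem invOne : Inv (1 : MonoidAlgebra R G) :=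
  inv_of_cj fun u => by rw [cj_eq_iff]; simp

theorem invZero : Inv (0 : MonoidAlgebra R G) := fun _ _ => by simp

theorem Inv.add {x y : MonoidAlgebra R G} (hx : Inv x) (hy : Inv y) : Inv (x + y) := fun u g => by
  rw [coeff_add, Finsupp.add_apply, Finsupp.add_apply, hx u g, hy u g]

theorem Inv.sub {x y : MonoidAlgebra R G} (hx : Inv x) (hy : Inv y) : Inv (x - y) := fun u g => by
  rw [coeff_sub, Finsupp.sub_apply, Finsupp.sub_apply, hx u g, hy u g]

theorem Inv.smul {x : MonoidAlgebra R G} (c : R) (hx : Inv x) : Inv (c • x) := fun u g => by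
  rw [coeff_smul_apply, coeff_smul_apply, hx u g]

theorem Inv.pow {x : MonoidAlgebra R G} (hx : Inv x) (n : ℕ) : Inv (x ^ n) := by
  induction n with
  | zero => rw [pow_zero]; exact invOne
  | succ n ih => rw [pow_succ]; exact ih.mul hx

theorem supp_top (x : MonoidAlgebra R G) : Supp ⊤ x := fun g hg => absurd (Subgroup.mem_top g) hg

theorem Supp.one (H : Subgroup G) : Supp H (1 : MonoidAlgebra R G) := by
  classical
  intro g hg
  rw [one_def, coeff_single, Finsupp.single_apply, if_neg]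
  rintro rfl
  exact hg H.one_mem

theorem Supp.pow {H : Subgroup G} {x : MonoidAlgebra R G} (hx : Supp H x) (n : ℕ) :
    Supp H (x ^ n) := by
  induction n with
  | zero => rw [pow_zero]; exact Supp.one H
  | succ n ih => rw [pow_succ]; exact ih.mul hx

end Aug

section PB

variable {K : Type*} [Field K] {G : Type*} [Group G] [Fintype G]

/-- principal block idempotents -/
structure PB (e : MonoidAlgebra K G) : Prop where
  inv : Inv e
  idem : e * e = e
  aug_ne : aug e ≠ 0
  prim : ∀ x : MonoidAlgebra K G, Inv x → x * x = x → x * e = e ∨ x * e = 0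

theorem PB.aug_eq {e : MonoidAlgebra K G} (h : PB e) : aug e = 1 := by
  have h1 : aug e * aug e = aug e := by rw [← map_mul, h.idem]
  exact mul_left_cancel₀ h.aug_ne (by rw [h1, mul_one])

theorem PB.mul_eq {e : MonoidAlgebra K G} (h : PB e) {x : MonoidAlgebra K G} (hx : Inv x)
    (hxx : x * x = x) (hax : aug x ≠ 0) : x * e = e := by
  rcases h.prim x hx hxx with h1 | h1
  · exact h1
  · exfalso
    have h2 := congrArg aug h1
    rw [map_mul, map_zero] at h2
    exact (mul_ne_zero hax h.aug_ne) h2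

instance finiteMA : Module.Finite K (MonoidAlgebra K G) :=
  Module.Finite.of_basis (Module.Basis.ofRepr (coeffLinearEquiv K))

theorem exists_PB : ∃ e : MonoidAlgebra K G, PB e := by
  classical
  have hne : ∃ d : ℕ, ∃ e : MonoidAlgebra K G, (Inv e ∧ e * e = e ∧ aug e ≠ 0) ∧
      Module.finrank K (AA ⊤ e) = d := by
    refine ⟨_, 1, ⟨invOne, one_mul 1, ?_⟩, rfl⟩
    rw [map_one]
    exact one_ne_zero
  obtain ⟨e, ⟨h1, h2, h3⟩, h4⟩ := Nat.find_spec hne
  have hmin : ∀ e' : MonoidAlgebra K G, Inv e' → e' * e' = e' → aug e' ≠ 0 →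
      Module.finrank K (AA ⊤ e) ≤ Module.finrank K (AA ⊤ e') := by
    intro e' h5 h6 h7
    rw [h4]
    exact Nat.find_min' hne ⟨e', ⟨h5, h6, h7⟩, rfl⟩
  have key : ∀ x : MonoidAlgebra K G, Inv x → x * x = x → aug x ≠ 0 → x * e = e := by
    intro x hx hxx hax
    have h5 : AA ⊤ (x * e) ≤ AA ⊤ e := by
      rintro y ⟨hy, hy1, hy2⟩
      refine ⟨hy, hy1, ?_⟩
      rw [← hy2, mul_assoc, mul_assoc, h2]
    have h6 := hmin (x * e) (hx.mul h1) (by
      rw [mul_assoc, ← mul_assoc e, h1.comm x, mul_assoc x, h2, ← mul_assoc, hxx]) (by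
      rw [map_mul]
      exact mul_ne_zero hax h3)
    have h7 := Submodule.eq_of_le_of_finrank_le h5 h6
    have h8 : e ∈ AA ⊤ (x * e) := by
      rw [h7]
      exact ⟨h1, supp_top e, h2⟩
    have h9 := h8.2.2
    rwa [← mul_assoc, h1.comm x, mul_assoc, h2] at h9
  refine ⟨e, h1, h2, h3, fun x hx hxx => ?_⟩
  by_cases hax : aug x = 0
  · right
    have h0 : (1 - x) * (1 - x) = 1 - x - x + x * x := by noncomm_ring
    have h5 := key (1 - x) (invOne.sub hx) (by
      rw [h0, hxx, sub_add_cancel]) (by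
      rw [map_sub, map_one, hax, sub_zero]
      exact one_ne_zero)
    rw [sub_mul, one_mul] at h5
    exact sub_eq_self.1 h5
  · exact Or.inl (key x hx hxx hax)

/-- the commutative algebra of central elements supported on `H` -/
def CA (K : Type*) [Field K] {G : Type*} [Group G] [Fintype G] (H : Subgroup G) :
    Subalgebra K (MonoidAlgebra K G) where
  carrier := {x | Inv x ∧ Supp H x}
  mul_mem' := by
    rintro a b ⟨ha, ha'⟩ ⟨hb, hb'⟩
    exact ⟨ha.mul hb, ha'.mul hb'⟩
  add_mem' := by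
    rintro a b ⟨ha, ha1⟩ ⟨hb, hb1⟩
    refine ⟨ha.add hb, fun g hg => ?_⟩
    rw [coeff_add, Finsupp.add_apply, ha1 g hg, hb1 g hg, add_zero]
  algebraMap_mem' r := by
    rw [Algebra.algebraMap_eq_smul_one]
    exact ⟨invOne.smul r, (Supp.one H).smul r⟩

noncomputable instance (H : Subgroup G) : CommRing (CA K H) :=
  { (inferInstance : Ring (CA K H)) with
    mul_comm := by
      rintro ⟨a, ha, ha'⟩ ⟨b, hb, hb'⟩
      exact Subtype.ext (ha.comm b) }

/-- Fitting: the idempotent generated by a central element supported on `H` -/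
theorem fitting {H : Subgroup G} {x : MonoidAlgebra K G} (hx : Inv x) (hxH : Supp H x) :
    ∃ (n : ℕ) (w : MonoidAlgebra K G), Inv w ∧ Supp H w ∧
      x ^ (n + 1) = x ^ (n + 1) * (x ^ (n + 1) * w) := by
  haveI : Module.Finite K (CA K H) := inferInstance
  haveI : IsArtinianRing (CA K H) := IsArtinianRing.of_finite K _
  obtain ⟨n, y, hy⟩ := IsArtinian.exists_pow_succ_smul_dvd (M := CA K H)
    (⟨x, hx, hxH⟩ : CA K H) (1 : CA K H)
  have h1 : ∀ k : ℕ, (⟨x, hx, hxH⟩ : CA K H) ^ (n + k) * y ^ k = (⟨x, hx, hxH⟩ : CA K H) ^ n := by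
    intro k
    induction k with
    | zero => simp
    | succ k ih =>
      rw [← ih]
      simp only [smul_eq_mul, mul_one, Nat.succ_eq_add_one] at hy
      calc (⟨x, hx, hxH⟩ : CA K H) ^ (n + (k + 1)) * y ^ (k + 1)
          = ((⟨x, hx, hxH⟩ : CA K H) ^ (n + 1) * y) * ((⟨x, hx, hxH⟩ : CA K H) ^ k * y ^ k) := by
            ring
        _ = _ := by
            rw [hy]
            ring
  refine ⟨n, (y ^ (n + 1) : CA K H), (y ^ (n + 1) : CA K H).2.1, (y ^ (n + 1) : CA K H).2.2, ?_⟩
  have h2 : (⟨x, hx, hxH⟩ : CA K H) ^ (n + 1) = (⟨x, hx, hxH⟩ : CA K H) ^ (n + 1) *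
      ((⟨x, hx, hxH⟩ : CA K H) ^ (n + 1) * y ^ (n + 1)) := by
    calc (⟨x, hx, hxH⟩ : CA K H) ^ (n + 1)
        = (⟨x, hx, hxH⟩ : CA K H) * (⟨x, hx, hxH⟩ : CA K H) ^ n := by ring
      _ = (⟨x, hx, hxH⟩ : CA K H) * ((⟨x, hx, hxH⟩ : CA K H) ^ (n + (n + 1)) * y ^ (n + 1)) := by
          rw [h1]
      _ = _ := by ring
  have h3 := congrArg (fun z : CA K H => (z : MonoidAlgebra K G)) h2
  push_cast at h3
  exact_mod_cast h3

end PB

end H91.Nav
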