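import Pool.Agent.H91.Nav.Pb

/-!
# The part of the principal block idempotent on a normal subgroup of index prime to `p`
-/

set_option autoImplicit false
set_option linter.unusedSectionVars false

namespace H91.Nav

open MonoidAlgebra

section Phi

variable {R : Type*} [CommRing R] {G Γ : Type*} [Group G] [Fintype G] [Group Γ] [Fintype Γ]

theorem aug_phi (π : G →* Γ) (x : MonoidAlgebra R G) : aug (mapDomainRingHom R π x) = aug x := by
  classical
  rw [aug_apply, aug_apply]
  simp only [coeff_phi]
  rw [Finset.sum_comm]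
  simp

theorem phi_single (π : G →* Γ) (g : G) (r : R) :
    mapDomainRingHom R π (single g r) = single (π g) r := by
  rw [mapDomainRingHom_apply, mapDomain_single]

theorem phi_cj (π : G →* Γ) (u : G) (x : MonoidAlgebra R G) :
    mapDomainRingHom R π (cj u x) = cj (π u) (mapDomainRingHom R π x) := by
  rw [cj, cj, map_mul, map_mul, phi_single, phi_single, map_inv]

theorem Inv.phi {π : G →* Γ} (hπ : Function.Surjective π) {x : MonoidAlgebra R G} (hx : Inv x) :
    Inv (mapDomainRingHom R π x) := by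
  apply inv_of_cj
  intro u
  obtain ⟨v, rfl⟩ := hπ u
  rw [← phi_cj, hx.cj]

end Phi

section Nil

variable {K : Type*} [Field K]

theorem trace_mulRight {G : Type*} [Group G] [Fintype G] (u : MonoidAlgebra K G) :
    LinearMap.trace K _ (LinearMap.mulRight K u) = Fintype.card G * u.coeff 1 := by
  rw [trace_eq]
  have : ∀ g : G, (LinearMap.mulRight K u (single g 1)).coeff g = u.coeff 1 := by
    intro g
    rw [LinearMap.mulRight_apply, coeff_single_mul_apply, one_mul, inv_mul_cancel]
  simp only [this]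
  rw [Finset.sum_const, Finset.card_univ, nsmul_eq_mul]

/-- no central nilpotents if the order is invertible -/
theorem central_nilp {A : Type*} [Group A] [Fintype A] (hA : (Fintype.card A : K) ≠ 0)
    {u : MonoidAlgebra K A} (hu : Inv u) (hn : IsNilpotent u) : u = 0 := by
  apply ext_coeff
  intro b
  obtain ⟨n, hn⟩ := hn
  have h1 : IsNilpotent (LinearMap.mulRight K (u * single b⁻¹ 1)) := by
    refine ⟨n, ?_⟩
    rw [LinearMap.pow_mulRight, Commute.mul_pow (hu.comm _), hn, zero_mul,
      LinearMap.mulRight_zero_eq_zero]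
  have h2 := LinearMap.isNilpotent_trace_of_isNilpotent h1
  rw [trace_mulRight] at h2
  have h3 := h2.eq_zero
  have h4 := (mul_eq_zero.1 h3).resolve_left hA
  rw [coeff_mul_single_apply, mul_one, inv_inv, one_mul] at h4
  rw [h4]
  rfl

theorem PB.nilp {G : Type*} [Group G] [Fintype G] {f : MonoidAlgebra K G} (hf : PB f)
    {x : MonoidAlgebra K G} (hx : Inv x) (hax : aug x = 0) : IsNilpotent (x * f) := by
  obtain ⟨n, w, hw, -, h⟩ := fitting hx (supp_top x)
  set y := x ^ (n + 1) with hy
  have hyI : Inv y := hx.pow _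
  have h1 : (y * w) * (y * w) = y * w := by
    calc (y * w) * (y * w) = (y * (y * w)) * w := by
          rw [mul_assoc, mul_assoc, hw.comm (y * w)]
      _ = y * w := by rw [← h]
  have h2 : (y * w) * f = 0 := by
    rcases hf.prim (y * w) (hyI.mul hw) h1 with h3 | h3
    · exfalso
      have h4 := congrArg aug h3
      rw [map_mul, map_mul, hy, map_pow, hax, zero_pow (Nat.succ_ne_zero n), zero_mul,
        zero_mul] at h4
      exact hf.aug_ne h4.symm
    · exact h3
  refine ⟨n + 1, ?_⟩
  rw [Commute.mul_pow (hx.comm f), ← hy, pow_succ', ← mul_assoc, h, mul_assoc y, h2, mul_zero,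
    zero_mul]

end Nil

section Fix

variable {p : ℕ} [Fact p.Prime] {K : Type*} [Field K] [CharP K p] {G : Type*} [Group G]
  [Fintype G]

/-- sums of invariant functions over sets without fixed points vanish -/
theorem sum_no_fixed (P : Subgroup G) (hP : IsPGroup p P) (S : Finset G)
    (hS : ∀ h ∈ P, ∀ g ∈ S, h * g * h⁻¹ ∈ S) (w : G → K)
    (hw : ∀ h ∈ P, ∀ g, w (h * g * h⁻¹) = w g)
    (hno : ∀ g ∈ S, ∃ h ∈ P, h * g * h⁻¹ ≠ g) : ∑ g ∈ S, w g = 0 := by
  classical
  have h1 := Finset.sum_comp (s := S) (f := fun c : K => c) (g := w)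
  rw [h1]
  refine Finset.sum_eq_zero fun c _ => ?_
  letI : MulAction P {g : G // g ∈ S ∧ w g = c} :=
    { smul := fun h g => ⟨h * g * (h : G)⁻¹, hS h h.2 g g.2.1, by rw [hw h h.2, g.2.2]⟩
      one_smul := fun g => Subtype.ext (by
        change ((1 : P) : G) * g * ((1 : P) : G)⁻¹ = g
        simp)
      mul_smul := fun h k g => Subtype.ext (by
        change ((h * k : P) : G) * g * ((h * k : P) : G)⁻¹ = h * (k * g * (k : G)⁻¹) * (h : G)⁻¹
        push_cast
        group) }
  have h2 := hP.card_modEq_card_fixedPoints {g : G // g ∈ S ∧ w g = c}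
  have h3 : IsEmpty (MulAction.fixedPoints P {g : G // g ∈ S ∧ w g = c}) := by
    constructor
    rintro ⟨⟨g, hg, hgc⟩, hfix⟩
    obtain ⟨h, hh, hne⟩ := hno g hg
    apply hne
    have := hfix ⟨h, hh⟩
    exact congrArg Subtype.val this
  rw [@Nat.card_of_isEmpty _ h3, Nat.card_eq_fintype_card, Fintype.card_subtype] at h2
  have h4 : ((Finset.univ.filter fun g : G => g ∈ S ∧ w g = c).card : K) = 0 := by
    rw [CharP.cast_eq_zero_iff K p]
    exact (Nat.modEq_zero_iff_dvd).1 h2
  have h5 : S.filter (fun a => w a = c) = Finset.univ.filter fun g : G => g ∈ S ∧ w g = c := by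
    ext g
    simp
  rw [h5, nsmul_eq_mul, h4, zero_mul]

end Fix

section ClaimD

variable {K : Type*} [Field K] {Γ A : Type*} [Group Γ] [Fintype Γ] [Group A] [Fintype A]

/-- The value at `1` of the image of the principal block idempotent in the group algebra of a
`p'`-quotient is not zero. -/
theorem phi_coeff_one_ne (p : ℕ) [hp : Fact p.Prime] [CharP K p] {ψ : Γ →* A} (hψ : Function.Surjective ψ)
    (hA : (Fintype.card A : K) ≠ 0) {f : MonoidAlgebra K Γ} (hf : PB f) :
    (mapDomainRingHom K ψ f).coeff 1 ≠ 0 := by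
  classical
  intro h0
  set F := mapDomainRingHom K ψ f with hF
  have hFI : Inv F := hf.inv.phi hψ
  obtain ⟨P⟩ : Nonempty (Sylow p Γ) := inferInstance
  have hPk : ∀ h ∈ (P : Subgroup Γ), ψ h = 1 := by
    intro h hh
    obtain ⟨k, hk⟩ := P.isPGroup' ⟨h, hh⟩
    have hk' : h ^ p ^ k = 1 := congrArg Subtype.val hk
    have h1 : ψ h ^ p ^ k = 1 := by rw [← map_pow, hk', map_one]
    have h2 : ψ h ^ Fintype.card A = 1 := pow_card_eq_one
    have h3 : Nat.Coprime (p ^ k) (Fintype.card A) := by
      apply Nat.Coprime.pow_left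
      rw [Nat.Prime.coprime_iff_not_dvd hp.out, ← CharP.cast_eq_zero_iff K p]
      exact hA
    have h4 : ψ h ^ Nat.gcd (p ^ k) (Fintype.card A) = 1 := by
      rw [pow_gcd_eq_one]
      exact ⟨h1, h2⟩
    rwa [h3.gcd_eq_one, pow_one] at h4
  -- outside the image of the centraliser of `P`
  have hout : ∀ a : A, (∀ x : Γ, ψ x = a → ∃ h ∈ (P : Subgroup Γ), h * x * h⁻¹ ≠ x) →
      F.coeff a = 0 := by
    intro a ha
    rw [hF, coeff_phi, ← Finset.sum_filter]
    refine sum_no_fixed (p := p) (P : Subgroup Γ) P.isPGroup' _ ?_ _ ?_ ?_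
    · intro h hh g hg
      rw [Finset.mem_filter] at hg ⊢
      refine ⟨Finset.mem_univ _, ?_⟩
      rw [map_mul, map_mul, map_inv, hPk h hh, hg.2]
      simp
    · intro h _ g
      exact hf.inv h g
    · intro g hg
      rw [Finset.mem_filter] at hg
      exact ha g hg.2
  have hidx : ((Fintype.card (Γ ⧸ (P : Subgroup Γ)) : ℕ) : K) ≠ 0 := by
    rw [Ne, CharP.cast_eq_zero_iff K p, ← Nat.card_eq_fintype_card]
    exact P.not_dvd_index
  -- inside
  have hin : ∀ x : Γ, (∀ h ∈ (P : Subgroup Γ), h * x * h⁻¹ = x) → F.coeff ((ψ x)⁻¹) = F.coeff 1 := by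
    intro x hx
    set c : Γ ⧸ (P : Subgroup Γ) → Γ := fun q => Quotient.liftOn' q (fun u => u * x * u⁻¹) (by
      intro u v huv
      rw [QuotientGroup.leftRel_apply] at huv
      have := hx _ huv
      have h2 : v * x * v⁻¹ = u * ((u⁻¹ * v) * x * (u⁻¹ * v)⁻¹) * u⁻¹ := by group
      change u * x * u⁻¹ = v * x * v⁻¹
      rw [h2, this]) with hc
    have hcmk : ∀ u : Γ, c (QuotientGroup.mk u) = u * x * u⁻¹ := fun u => rfl
    have hcs : ∀ (u : Γ) (q : Γ ⧸ (P : Subgroup Γ)), c (u • q) = u * c q * u⁻¹ := by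
      intro u q
      induction q using QuotientGroup.induction_on with
      | H v =>
        rw [MulAction.Quotient.smul_mk, hcmk, hcmk, smul_eq_mul]
        group
    set κ : MonoidAlgebra K Γ := ∑ q, single (c q) 1 with hκ
    have hκI : Inv κ := by
      apply inv_of_cj
      intro u
      rw [← cjL_apply, hκ, map_sum]
      simp only [cjL_apply, cj_single]
      exact Fintype.sum_equiv (MulAction.toPerm u) _ _ (fun q => by
        rw [MulAction.toPerm_apply, hcs])
    have haug : aug κ = (Fintype.card (Γ ⧸ (P : Subgroup Γ)) : K) := by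
      rw [hκ, map_sum]
      simp only [aug_single]
      simp
    have hs : (single 1 (aug κ) : MonoidAlgebra K Γ) = aug κ • 1 := by
      rw [one_def, smul_single, smul_eq_mul, mul_one]
    have hsI : Inv (κ - single 1 (aug κ)) := by
      rw [hs]
      exact hκI.sub (invOne.smul _)
    have h1 := hf.nilp hsI (by rw [map_sub, aug_single, sub_self])
    have h2 := h1.map (mapDomainRingHom K ψ)
    have h3 := central_nilp hA (Inv.phi hψ (hsI.mul hf.inv)) h2
    rw [map_mul, map_sub, phi_single, map_one, sub_mul, ← hF, haug, hκ, map_sum,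
      Finset.sum_mul] at h3
    have h4 := congrArg (fun z => z.coeff 1) h3
    simp only [phi_single, coeff_sub, Finsupp.sub_apply, coeff_sum, Finsupp.coe_finsetSum,
      Finset.sum_apply, coeff_single_mul_apply, one_mul, mul_one] at h4
    have h5 : ∀ q, F.coeff ((ψ (c q))⁻¹) = F.coeff ((ψ x)⁻¹) := by
      intro q
      induction q using QuotientGroup.induction_on with
      | H v =>
        rw [hcmk, ← hFI (ψ v) ((ψ x)⁻¹)]
        congr 1
        rw [map_mul, map_mul, map_inv]
        group
    simp only [h5] at h4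
    rw [Finset.sum_const, Finset.card_univ, nsmul_eq_mul, ← mul_sub] at h4
    have h6 := (mul_eq_zero.1 h4).resolve_left hidx
    rw [inv_one] at h6
    exact sub_eq_zero.1 h6
  apply hf.aug_ne
  rw [← aug_phi ψ, ← hF, aug_apply]
  refine Finset.sum_eq_zero fun a _ => ?_
  by_cases ha : ∃ x : Γ, ψ x = a ∧ ∀ h ∈ (P : Subgroup Γ), h * x * h⁻¹ = x
  · obtain ⟨x, rfl, hx⟩ := ha
    have h1 := hin x⁻¹ (fun h hh => by
      have := hx h hh
      calc h * x⁻¹ * h⁻¹ = (h * x * h⁻¹)⁻¹ := by group
        _ = x⁻¹ := by rw [this])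
    rw [map_inv ψ, inv_inv] at h1
    rw [h1, h0]
  · apply hout
    intro x hx
    by_contra hcon
    push Not at hcon
    exact ha ⟨x, hx, hcon⟩

end ClaimD

end H91.Nav
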