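import Pool.Agent.H91.Nav.Res

/-!
# Slices along an abelian normal subgroup, and lifting of central idempotents
-/

set_option autoImplicit false
set_option linter.unusedSectionVars false

namespace H91.Nav

open MonoidAlgebra

section Sl

variable {K : Type*} [Field K] {G : Type*} [Group G] [Fintype G] {V : Type*} [CommGroup V]
  [Fintype V] (i : V →* G)

/-- the slice of an element along the coset of `g` -/
noncomputable def sl (g : G) : MonoidAlgebra K G →ₗ[K] MonoidAlgebra K V where
  toFun z := mk (fun w => z.coeff (i w * g))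
  map_add' x y := ext_coeff fun w => by
    simp only [coeff_mk, coeff_add, Finsupp.add_apply]
  map_smul' c x := ext_coeff fun w => by
    simp only [coeff_mk, coeff_smul_apply, RingHom.id_apply]

theorem coeff_sl (g : G) (z : MonoidAlgebra K G) (w : V) :
    (sl i g z).coeff w = z.coeff (i w * g) := rfl

/-- the embedding of group algebras -/
noncomputable def io : MonoidAlgebra K V →+* MonoidAlgebra K G := mapDomainRingHom K i

theorem coeff_io_mul (a : MonoidAlgebra K V) (y : MonoidAlgebra K G) (g : G) :
    (io i a * y).coeff g = ∑ v : V, a.coeff v * y.coeff ((i v)⁻¹ * g) := by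
  classical
  rw [coeff_mul_l]
  simp only [io, coeff_phi]
  simp only [Finset.sum_mul, ite_mul, zero_mul]
  rw [Finset.sum_comm]
  refine Finset.sum_congr rfl fun v _ => ?_
  simp

theorem sl_io_mul (a : MonoidAlgebra K V) (y : MonoidAlgebra K G) (g : G) :
    sl i g (io i a * y) = a * sl i g y := by
  apply ext_coeff
  intro w
  rw [coeff_sl, coeff_io_mul, coeff_mul_l]
  refine Finset.sum_congr rfl fun v _ => ?_
  rw [coeff_sl, map_mul i, map_inv i, mul_assoc]

theorem sl_shift (v : V) (g : G) (z : MonoidAlgebra K G) :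
    sl i (i v * g) z = single v⁻¹ 1 * sl i g z := by
  apply ext_coeff
  intro w
  rw [coeff_sl, coeff_single_mul_apply, coeff_sl, one_mul, inv_inv, mul_comm v w, map_mul i,
    mul_assoc]

theorem sl_mul (g : G) (z y : MonoidAlgebra K G) :
    sl i g (z * y) = ∑ x : G, y.coeff x • sl i (g * x⁻¹) z := by
  apply ext_coeff
  intro w
  rw [coeff_sl, coeff_mul_r, coeff_sum, Finsupp.coe_finsetSum, Finset.sum_apply]
  refine Finset.sum_congr rfl fun x _ => ?_
  rw [coeff_smul_apply, coeff_sl, smul_eq_mul, mul_comm, mul_assoc]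

variable {Γ : Type*} [Group Γ] [Fintype Γ] (π : G →* Γ)

theorem aug_sl (hi : Function.Injective i) (hker : ∀ g, π g = 1 ↔ ∃ v, i v = g) (g : G)
    (z : MonoidAlgebra K G) : aug (sl i g z) = (mapDomainRingHom K π z).coeff (π g) := by
  classical
  rw [coeff_phi, aug_apply, ← Finset.sum_filter]
  refine Finset.sum_bij (fun v _ => i v * g) ?_ ?_ ?_ ?_
  · intro v _
    rw [Finset.mem_filter]
    refine ⟨Finset.mem_univ _, ?_⟩
    rw [map_mul, (hker (i v)).2 ⟨v, rfl⟩, one_mul]
  · intro v _ w _ h
    exact hi (mul_right_cancel h)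
  · intro x hx
    rw [Finset.mem_filter] at hx
    have : π (x * g⁻¹) = 1 := by rw [map_mul, map_inv, hx.2, mul_inv_cancel]
    obtain ⟨v, hv⟩ := (hker _).1 this
    exact ⟨v, Finset.mem_univ _, by rw [hv, inv_mul_cancel_right]⟩
  · intro v _
    rw [coeff_sl]

theorem phi_eq_zero_iff (hi : Function.Injective i) (hker : ∀ g, π g = 1 ↔ ∃ v, i v = g)
    (hπ : Function.Surjective π) (z : MonoidAlgebra K G) :
    mapDomainRingHom K π z = 0 ↔ ∀ g, aug (sl i g z) = 0 := by
  constructor
  · intro h g
    rw [aug_sl i π hi hker, h]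
    rfl
  · intro h
    apply ext_coeff
    intro γ
    obtain ⟨g, rfl⟩ := hπ γ
    rw [← aug_sl i π hi hker, h]
    rfl

theorem sl_decomp (hi : Function.Injective i) (hker : ∀ g, π g = 1 ↔ ∃ v, i v = g)
    (s : Γ → G) (hs : ∀ γ, π (s γ) = γ) (z : MonoidAlgebra K G) :
    z = ∑ γ : Γ, io i (sl i (s γ) z) * single (s γ) 1 := by
  classical
  apply ext_coeff
  intro g
  rw [coeff_sum, Finsupp.coe_finsetSum, Finset.sum_apply]
  have h1 : π (g * (s (π g))⁻¹) = 1 := by rw [map_mul, map_inv, hs, mul_inv_cancel]
  obtain ⟨v, hv⟩ := (hker _).1 h1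
  rw [Finset.sum_eq_single (π g)]
  · rw [coeff_io_mul, Finset.sum_eq_single v]
    · rw [coeff_sl, hv, inv_mul_cancel_right, coeff_single, Finsupp.single_apply, if_pos, mul_one]
      rw [mul_inv_rev, inv_inv, inv_mul_cancel_right]
    · intro w _ hw
      rw [coeff_single, Finsupp.single_apply, if_neg, mul_zero]
      intro h
      apply hw
      apply hi
      rw [hv, h, mul_inv_rev, inv_inv]
      group
    · intro h
      exact absurd (Finset.mem_univ v) h
  · intro γ _ hγ
    rw [coeff_io_mul]
    refine Finset.sum_eq_zero fun w _ => ?_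
    rw [coeff_single, Finsupp.single_apply, if_neg, mul_zero]
    intro h
    apply hγ
    rw [← hs γ, h, map_mul, map_inv, (hker (i w)).2 ⟨w, rfl⟩, inv_one, one_mul]
  · intro h
    exact absurd (Finset.mem_univ _) h

end Sl

section Aug

variable {p : ℕ} [Fact p.Prime] {K : Type*} [Field K] [CharP K p] {V : Type*} [CommGroup V]
  [Fintype V]

/-- the augmentation ideal -/
noncomputable def AI (K : Type*) [Field K] (V : Type*) [CommGroup V] [Fintype V] :
    Ideal (MonoidAlgebra K V) := RingHom.ker (aug : MonoidAlgebra K V →+* K)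

theorem mem_AI {x : MonoidAlgebra K V} : x ∈ AI K V ↔ aug x = 0 := Iff.rfl

/-- the augmentation ideal of an abelian `p`-group is nilpotent -/
theorem AI_nilpotent (hV : IsPGroup p V) : ∃ n : ℕ, (AI K V) ^ n = ⊥ := by
  classical
  have : CharP (MonoidAlgebra K V) p :=
    charP_of_injective_algebraMap (algebraMap K (MonoidAlgebra K V)).injective p
  have : ExpChar (MonoidAlgebra K V) p := ExpChar.prime Fact.out
  have : ExpChar K p := ExpChar.prime Fact.out
  have : IsNoetherianRing (MonoidAlgebra K V) := IsNoetherianRing.of_finite K _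
  obtain ⟨k, hk⟩ := (IsPGroup.iff_card.1 hV)
  have h1 : IsNilpotent (AI K V) := by
    rw [Ideal.FG.isNilpotent_iff_le_nilradical (IsNoetherian.noetherian _)]
    intro x hx
    rw [mem_nilradical]
    refine ⟨p ^ k, ?_⟩
    have h2 : x = ∑ v : V, single v (x.coeff v) := by
      apply ext_coeff
      intro g
      rw [coeff_sum, Finsupp.coe_finsetSum, Finset.sum_apply]
      simp only [coeff_single, Finsupp.single_apply]
      simp
    rw [h2, sum_pow_char_pow]
    simp only [single_pow]
    have h3 : ∀ v : V, v ^ p ^ k = 1 := by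
      intro v
      rw [← hk]
      exact pow_card_eq_one'
    simp only [h3]
    have h4 : ∑ v : V, single (1 : V) (x.coeff v ^ p ^ k) =
        single (1 : V) ((∑ v : V, x.coeff v) ^ p ^ k) := by
      rw [sum_pow_char_pow]
      exact (map_sum (singleAddHom (R := K) (1 : V)) _ _).symm
    rw [h4, ← aug_apply, mem_AI.1 hx, zero_pow (pow_ne_zero _ (Fact.out : p.Prime).ne_zero)]
    exact single_zero _
  obtain ⟨n, hn⟩ := h1
  exact ⟨n, hn⟩

end Aug

end H91.Nav
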