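import Pool.Agent.H91.Nav.CoreB

/-!
# The steps of the induction
-/

set_option autoImplicit false
set_option linter.unusedSectionVars false

namespace H91.Nav

open MonoidAlgebra

section Steps

variable {G Γ : Type} [Group G] [Group Γ] [Fintype G] [Fintype Γ]

/-- the fixed-point-free step -/
theorem core' (p : ℕ) [hp : Fact p.Prime] (K : Type) [Field K] [CharP K p] [PerfectRing K p]
    (π : G →* Γ) (hπ : Function.Surjective π) (hV : IsPGroup p π.ker)
    (hfpf : ∀ g : G, (∀ v ∈ π.ker, g * v * g⁻¹ = v) ∨ (∀ v ∈ π.ker, g * v * g⁻¹ = v → v = 1))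
    {e : MonoidAlgebra K G} {f : MonoidAlgebra K Γ} (he : PB e) (hf : PB f) :
    Module.finrank K (AA ⊤ e) ≤ Module.finrank K (AA ⊤ f) * Nat.card π.ker := by
  classical
  have hcomm : ∀ a b : π.ker, a * b = b * a := by
    rintro ⟨a, ha⟩ ⟨b, hb⟩
    apply Subtype.ext
    change a * b = b * a
    rcases hfpf a with h | h
    · have := h b hb
      calc a * b = (a * b * a⁻¹) * a := by group
        _ = b * a := by rw [this]
    · have h1 := h a ha (by group)
      rw [h1, one_mul, mul_one]
  let _ : CommGroup π.ker := { (inferInstance : Group π.ker) with mul_comm := hcomm }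
  let _ : Fintype π.ker := Fintype.ofFinite _
  refine core (π.ker.subtype) (MulAut.conjNormal (H := π.ker)) π ?_ ?_ hπ ?_ p hV ?_ he hf
  · exact Subtype.coe_injective
  · intro g
    rw [← MonoidHom.mem_ker]
    exact ⟨fun h => ⟨⟨g, h⟩, rfl⟩, by rintro ⟨v, rfl⟩; exact v.2⟩
  · intro g w
    rfl
  · intro g
    rcases hfpf g with h | h
    · left
      ext w
      exact h w w.2
    · right
      intro w hw
      exact Subtype.ext (h w w.2 (congrArg Subtype.val hw))

/-- the step for normal subgroups of order prime to `p` -/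
theorem step_p' (K : Type) [Field K] (π : G →* Γ) (hπ : Function.Surjective π)
    (hV : (Nat.card π.ker : K) ≠ 0)
    {e : MonoidAlgebra K G} {f : MonoidAlgebra K Γ} (he : PB e) (hf : PB f) :
    Module.finrank K (AA ⊤ e) ≤ Module.finrank K (AA ⊤ f) := by
  classical
  set c : K := (Nat.card π.ker : K) with hc
  have hfib : ∀ g : G, (Finset.univ.filter fun x : G => π x = π g).card = Nat.card π.ker := by
    intro g
    rw [Nat.card_eq_fintype_card, ← Finset.card_univ]
    symm
    refine Finset.card_bij (fun (v : π.ker) _ => (v : G) * g) ?_ ?_ ?_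
    · intro v _
      rw [Finset.mem_filter]
      refine ⟨Finset.mem_univ _, ?_⟩
      rw [map_mul, v.2, one_mul]
    · intro v _ w _ h
      exact Subtype.ext (mul_right_cancel h)
    · intro x hx
      rw [Finset.mem_filter] at hx
      refine ⟨⟨x * g⁻¹, ?_⟩, Finset.mem_univ _, by simp⟩
      rw [MonoidHom.mem_ker, map_mul, map_inv, hx.2, mul_inv_cancel]
  -- lifting of elements of `K[Γ]`
  set σ : MonoidAlgebra K Γ → MonoidAlgebra K G := fun y => mk (fun g => c⁻¹ * y.coeff (π g)) with hσ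
  have hσc : ∀ y g, (σ y).coeff g = c⁻¹ * y.coeff (π g) := fun y g => rfl
  have hφσ : ∀ y, mapDomainRingHom K π (σ y) = y := by
    intro y
    apply ext_coeff
    intro γ
    obtain ⟨g, rfl⟩ := hπ γ
    rw [coeff_phi, ← Finset.sum_filter]
    rw [Finset.sum_congr rfl (g := fun _ => c⁻¹ * y.coeff (π g)) (fun x hx => by
      rw [Finset.mem_filter] at hx
      rw [hσc, hx.2])]
    rw [Finset.sum_const, hfib, nsmul_eq_mul, ← hc, mul_inv_cancel_left₀ hV]
  have hσmul : ∀ (y : MonoidAlgebra K Γ) (x : MonoidAlgebra K G),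
      σ y * x = σ (y * mapDomainRingHom K π x) := by
    intro y x
    apply ext_coeff
    intro g
    rw [coeff_mul_r, hσc, coeff_mul_r]
    simp only [hσc, coeff_phi, Finset.mul_sum]
    rw [Finset.sum_comm]
    refine Finset.sum_congr rfl fun h _ => ?_
    rw [Finset.sum_eq_single (π h)]
    · rw [if_pos rfl, map_mul, map_inv, mul_assoc]
    · intro γ _ hγ
      rw [if_neg (Ne.symm hγ), mul_zero, mul_zero]
    · intro h
      exact absurd (Finset.mem_univ _) h
  have hσI : ∀ y, Inv y → Inv (σ y) := by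
    intro y hy u g
    rw [hσc, hσc, map_mul π, map_mul π, map_inv π, hy]
  -- `σ f` and `σ 1`
  have h1 : σ 1 * e = e := by
    refine he.mul_eq (hσI 1 invOne) ?_ ?_
    · rw [hσmul, hφσ, one_mul]
    · rw [← aug_phi π, hφσ, map_one]
      exact one_ne_zero
  have h2 : σ f * e = e := by
    refine he.mul_eq (hσI f hf.inv) ?_ ?_
    · rw [hσmul, hφσ, hf.idem]
    · rw [← aug_phi π, hφσ]
      exact hf.aug_ne
  set φ : MonoidAlgebra K G →ₗ[K] MonoidAlgebra K Γ :=
    { toFun := mapDomainRingHom K π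
      map_add' := map_add _
      map_smul' := fun c x => by
        rw [Algebra.smul_def, Algebra.smul_def, map_mul, Algebra.algebraMap_eq_smul_one,
          Algebra.algebraMap_eq_smul_one, one_def, smul_single, smul_eq_mul, mul_one, phi_single,
          map_one, one_def, smul_single, smul_eq_mul, mul_one]
        rfl } with hφ
  have h3 := LinearMap.finrank_range_add_finrank_ker (φ.domRestrict (AA ⊤ e))
  have h4 : LinearMap.ker (φ.domRestrict (AA ⊤ e)) = ⊥ := by
    rw [LinearMap.ker_eq_bot']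
    rintro ⟨y, hyI, hyt, hye⟩ hy
    apply Subtype.ext
    change y = 0
    have hy' : mapDomainRingHom K π y = 0 := hy
    have h5 : y = σ 1 * y := by
      conv_lhs => rw [← hye, ← h1, ← mul_assoc, hyI.comm, mul_assoc, hye]
    rw [h5, hσmul, hy', mul_zero]
    apply ext_coeff
    intro g
    rw [hσc]
    simp
  rw [h4, finrank_bot, add_zero] at h3
  rw [← h3]
  apply Submodule.finrank_mono
  rintro _ ⟨⟨z, hz, hzt, hze⟩, rfl⟩
  refine ⟨Inv.phi hπ hz, supp_top _, ?_⟩
  change mapDomainRingHom K π z * f = mapDomainRingHom K π z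
  conv_rhs => rw [← hze, ← h2, ← mul_assoc, map_mul, map_mul, hφσ]
  conv_lhs => rw [← hze, map_mul]
  rw [mul_assoc, mul_assoc, (Inv.phi hπ he.inv).comm]

end Steps

section NI

variable (p : ℕ) [hp : Fact p.Prime] (K : Type) [Field K]

/-- the inequality for a surjective homomorphism -/
def NI {G Γ : Type} [Group G] [Group Γ] (π : G →* Γ) : Prop :=
  ∀ (_ : Fintype G) (_ : Fintype Γ) (e : MonoidAlgebra K G) (f : MonoidAlgebra K Γ), PB e → PB f →
    Module.finrank K (AA ⊤ e) ≤
      Module.finrank K (AA ⊤ f) * p ^ (Nat.card π.ker).factorization p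

theorem card_ker {G Γ : Type} [Group G] [Group Γ] [Finite G] (π : G →* Γ)
    (hπ : Function.Surjective π) : Nat.card G = Nat.card Γ * Nat.card π.ker := by
  rw [Subgroup.card_eq_card_quotient_mul_card_subgroup π.ker,
    Nat.card_congr (QuotientGroup.quotientKerEquivOfSurjective π hπ).toEquiv]

theorem NI.comp {G₁ G₂ G₃ : Type} [Group G₁] [Group G₂] [Group G₃] [Finite G₁] [Finite G₂]
    [Finite G₃] {π₁ : G₁ →* G₂} {π₂ : G₂ →* G₃} (h₁ : Function.Surjective π₁)
    (h₂ : Function.Surjective π₂) (hN₁ : NI p K π₁) (hN₂ : NI p K π₂) :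
    NI p K (π₂.comp π₁) := by
  intro _ _ e f he hf
  let _ : Fintype G₂ := Fintype.ofFinite _
  obtain ⟨d, hd⟩ := exists_PB (K := K) (G := G₂)
  have e1 := hN₁ _ _ e d he hd
  have e2 := hN₂ _ _ d f hd hf
  have c1 := card_ker π₁ h₁
  have c2 := card_ker π₂ h₂
  have c3 := card_ker (π₂.comp π₁) (h₂.comp h₁)
  have hpos3 : 0 < Nat.card G₃ := Nat.card_pos
  have c4 : Nat.card (π₂.comp π₁).ker = Nat.card π₂.ker * Nat.card π₁.ker := by
    apply Nat.eq_of_mul_eq_mul_left hpos3
    rw [← c3, c1, c2, mul_assoc]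
  have n1 : Nat.card π₁.ker ≠ 0 := Nat.card_pos.ne'
  have n2 : Nat.card π₂.ker ≠ 0 := Nat.card_pos.ne'
  rw [c4, Nat.factorization_mul n2 n1, Finsupp.add_apply, pow_add, ← mul_assoc]
  exact e1.trans (Nat.mul_le_mul_right _ e2)

theorem NI.of_not_dvd [CharP K p] {G Γ : Type} [Group G] [Group Γ] (π : G →* Γ)
    (hπ : Function.Surjective π) (h : ¬ p ∣ Nat.card π.ker) : NI p K π := by
  intro _ _ e f he hf
  have h1 := step_p' K π hπ (by rwa [Ne, CharP.cast_eq_zero_iff K p]) he hf
  exact h1.trans (Nat.le_mul_of_pos_right _ (pow_pos hp.out.pos _))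

theorem NI.of_fpf [CharP K p] [PerfectRing K p] {G Γ : Type} [Group G] [Group Γ] [Finite G]
    (π : G →* Γ)
    (hπ : Function.Surjective π) (hV : IsPGroup p π.ker)
    (hfpf : ∀ g : G, (∀ v ∈ π.ker, g * v * g⁻¹ = v) ∨
      (∀ v ∈ π.ker, g * v * g⁻¹ = v → v = 1)) : NI p K π := by
  intro _ _ e f he hf
  have h1 := core' p K π hπ hV hfpf he hf
  obtain ⟨k, hk⟩ := IsPGroup.iff_card.1 hV
  rw [hk, hp.out.factorization_pow, Finsupp.single_eq_same]
  rw [hk] at h1
  exact h1

end NI

end H91.Nav
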