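import Pool.Agent.H91.Nav.Basic

/-!
# The trace identity (characteristic zero)
-/

set_option autoImplicit false
set_option linter.unusedSectionVars false

namespace H91.Nav

open MonoidAlgebra

section Spaces

variable {R : Type*} [CommRing R] {Γ : Type*} [Group Γ] [Fintype Γ]

/-- the element of the group algebra with given coefficients -/
noncomputable def mk (f : Γ → R) : MonoidAlgebra R Γ := ofCoeff (Finsupp.equivFunOnFinite.symm f)

theorem coeff_mk (f : Γ → R) (g : Γ) : (mk f).coeff g = f g := rfl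

/-- supported on `H` -/
def Supp (H : Subgroup Γ) (y : MonoidAlgebra R Γ) : Prop := ∀ g, g ∉ H → y.coeff g = 0

/-- conjugation invariant -/
def Inv (y : MonoidAlgebra R Γ) : Prop := ∀ u g, y.coeff (u * g * u⁻¹) = y.coeff g

theorem Supp.mul {H : Subgroup Γ} {x y : MonoidAlgebra R Γ} (hx : Supp H x) (hy : Supp H y) :
    Supp H (x * y) := by
  intro g hg
  rw [coeff_mul_l]
  refine Finset.sum_eq_zero fun h _ => ?_
  by_cases hh : h ∈ H
  · rw [hy _ (fun h2 => hg ?_), mul_zero]
    have := H.mul_mem hh h2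
    rwa [mul_inv_cancel_left] at this
  · rw [hx h hh, zero_mul]

theorem Supp.cj {H : Subgroup Γ} [H.Normal] {x : MonoidAlgebra R Γ} (hx : Supp H x) (u : Γ) :
    Supp H (H91.Nav.cj u x) := by
  intro g hg
  rw [coeff_cj]
  refine hx _ fun h => hg ?_
  have := (inferInstance : H.Normal).conj_mem _ h u
  convert this using 1
  group

theorem Supp.sum {H : Subgroup Γ} {ι : Type*} (s : Finset ι) (f : ι → MonoidAlgebra R Γ)
    (hf : ∀ i ∈ s, Supp H (f i)) : Supp H (∑ i ∈ s, f i) := by
  intro g hg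
  rw [coeff_sum, Finsupp.coe_finsetSum, Finset.sum_apply]
  exact Finset.sum_eq_zero fun i hi => hf i hi g hg

theorem Supp.smul {H : Subgroup Γ} {x : MonoidAlgebra R Γ} (hx : Supp H x) (c : R) :
    Supp H (c • x) := by
  intro g hg
  rw [coeff_smul_apply, hx g hg, smul_zero]

theorem Inv.cj {x : MonoidAlgebra R Γ} (hx : Inv x) (u : Γ) : H91.Nav.cj u x = x := by
  apply ext_coeff
  intro g
  rw [coeff_cj]
  have := hx u⁻¹ g
  rwa [inv_inv] at this

theorem inv_of_cj {x : MonoidAlgebra R Γ} (h : ∀ u, cj u x = x) : Inv x := by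
  intro u g
  have := coeff_cj u x (u * g * u⁻¹)
  rw [h u] at this
  rw [this]
  congr 1
  group

theorem cj_cj (u v : Γ) (x : MonoidAlgebra R Γ) : cj u (cj v x) = cj (u * v) x := by
  apply ext_coeff
  intro g
  rw [coeff_cj, coeff_cj, coeff_cj]
  congr 1
  group

/-- elements of `R[Γ] ε` commuting with `H` -/
def SS (H : Subgroup Γ) (ε : MonoidAlgebra R Γ) : Submodule R (MonoidAlgebra R Γ) where
  carrier := {y | (∀ h ∈ H, ∀ g, y.coeff (h * g * h⁻¹) = y.coeff g) ∧ y * ε = y}
  add_mem' := by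
    rintro a b ⟨ha, ha'⟩ ⟨hb, hb'⟩
    refine ⟨fun h hh g => ?_, ?_⟩
    · rw [coeff_add, Finsupp.add_apply, Finsupp.add_apply, ha h hh g, hb h hh g]
    · rw [add_mul, ha', hb']
  zero_mem' := ⟨fun _ _ _ => by simp, zero_mul _⟩
  smul_mem' := by
    rintro c a ⟨ha, ha'⟩
    refine ⟨fun h hh g => ?_, ?_⟩
    · rw [coeff_smul_apply, coeff_smul_apply, ha h hh g]
    · rw [smul_mul_assoc, ha']

/-- central elements of `R[Γ] ε` supported on `H` -/
def AA (H : Subgroup Γ) (ε : MonoidAlgebra R Γ) : Submodule R (MonoidAlgebra R Γ) where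
  carrier := {y | Inv y ∧ Supp H y ∧ y * ε = y}
  add_mem' := by
    rintro a b ⟨ha, ha1, ha'⟩ ⟨hb, hb1, hb'⟩
    refine ⟨fun u g => ?_, fun g hg => ?_, ?_⟩
    · rw [coeff_add, Finsupp.add_apply, Finsupp.add_apply, ha u g, hb u g]
    · rw [coeff_add, Finsupp.add_apply, ha1 g hg, hb1 g hg, add_zero]
    · rw [add_mul, ha', hb']
  zero_mem' := ⟨fun _ _ => by simp, fun _ _ => by simp, zero_mul _⟩
  smul_mem' := by
    rintro c a ⟨ha, ha1, ha'⟩
    refine ⟨fun u g => ?_, fun g hg => ?_, ?_⟩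
    · rw [coeff_smul_apply, coeff_smul_apply, ha u g]
    · rw [coeff_smul_apply, ha1 g hg, smul_zero]
    · rw [smul_mul_assoc, ha']

theorem mem_SS {H : Subgroup Γ} {ε y : MonoidAlgebra R Γ} :
    y ∈ SS H ε ↔ (∀ h ∈ H, ∀ g, y.coeff (h * g * h⁻¹) = y.coeff g) ∧ y * ε = y := Iff.rfl

theorem mem_AA {H : Subgroup Γ} {ε y : MonoidAlgebra R Γ} :
    y ∈ AA H ε ↔ Inv y ∧ Supp H y ∧ y * ε = y := Iff.rfl

end Spaces

section Field

variable {F : Type*} [Field F] {Γ : Type*} [Group Γ] [Fintype Γ]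

theorem trace_eq (f : MonoidAlgebra F Γ →ₗ[F] MonoidAlgebra F Γ) :
    LinearMap.trace F _ f = ∑ g, (f (single g 1)).coeff g := by
  classical
  set b : Module.Basis Γ F (MonoidAlgebra F Γ) := Module.Basis.ofRepr (coeffLinearEquiv F) with hb
  have hb1 : ∀ g, b g = single g 1 := fun g => by
    rw [hb, Module.Basis.coe_ofRepr]
    rfl
  rw [LinearMap.trace_eq_matrix_trace F b, Matrix.trace]
  refine Finset.sum_congr rfl fun g _ => ?_
  rw [Matrix.diag_apply, LinearMap.toMatrix_apply, hb1]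
  rfl

/-- conjugation as a linear map -/
noncomputable def cjL (h : Γ) : MonoidAlgebra F Γ →ₗ[F] MonoidAlgebra F Γ :=
  LinearMap.mulRight F (single h⁻¹ 1) ∘ₗ LinearMap.mulLeft F (single h 1)

theorem cjL_apply (h : Γ) (x : MonoidAlgebra F Γ) : cjL h x = cj h x := rfl

theorem cj_single (h g : Γ) : cj h (single g 1 : MonoidAlgebra F Γ) = single (h * g * h⁻¹) 1 := by
  rw [cj, single_mul_single, single_mul_single, one_mul, one_mul]

/-- restriction of the support to `H` -/
noncomputable def resL (H : Subgroup Γ) : MonoidAlgebra F Γ →ₗ[F] MonoidAlgebra F Γ where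
  toFun x := by
    classical
    exact mk (fun g => if g ∈ H then x.coeff g else 0)
  map_add' x y := by
    classical
    apply ext_coeff
    intro g
    simp only [coeff_mk, coeff_add, Finsupp.add_apply]
    split_ifs
    · rfl
    · simp
  map_smul' c x := by
    classical
    apply ext_coeff
    intro g
    simp only [coeff_mk, coeff_smul_apply, RingHom.id_apply]
    split_ifs
    · rfl
    · simp

theorem coeff_resL_mem {H : Subgroup Γ} (x : MonoidAlgebra F Γ) {g : Γ} (hg : g ∈ H) :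
    (resL H x).coeff g = x.coeff g := by
  classical
  exact if_pos hg

theorem coeff_resL_not_mem {H : Subgroup Γ} (x : MonoidAlgebra F Γ) {g : Γ} (hg : g ∉ H) :
    (resL H x).coeff g = 0 := by
  classical
  exact if_neg hg

variable [CharZero F]

/-- projection onto `SS` -/
noncomputable def prS (H : Subgroup Γ) [Fintype H] (ε : MonoidAlgebra F Γ) :
    MonoidAlgebra F Γ →ₗ[F] MonoidAlgebra F Γ :=
  ((Fintype.card H : F)⁻¹) • ∑ h : H, LinearMap.mulRight F ε ∘ₗ cjL (h : Γ)

/-- projection onto `AA` -/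
noncomputable def prA (H : Subgroup Γ) (ε : MonoidAlgebra F Γ) :
    MonoidAlgebra F Γ →ₗ[F] MonoidAlgebra F Γ :=
  ((Fintype.card Γ : F)⁻¹) • ∑ u : Γ, LinearMap.mulRight F ε ∘ₗ cjL u ∘ₗ resL H

theorem prS_apply (H : Subgroup Γ) [Fintype H] (ε x : MonoidAlgebra F Γ) :
    prS H ε x = ((Fintype.card H : F)⁻¹) • ∑ h : H, cj (h : Γ) x * ε := by
  rw [prS, LinearMap.smul_apply, LinearMap.sum_apply]
  rfl

theorem prA_apply (H : Subgroup Γ) (ε x : MonoidAlgebra F Γ) :
    prA H ε x = ((Fintype.card Γ : F)⁻¹) • ∑ u : Γ, cj u (resL H x) * ε := by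
  rw [prA, LinearMap.smul_apply, LinearMap.sum_apply]
  rfl

theorem isProj_prS (H : Subgroup Γ) [Fintype H] {ε : MonoidAlgebra F Γ} (hε : Inv ε) (hεε : ε * ε = ε) :
    LinearMap.IsProj (SS H ε) (prS H ε) := by
  classical
  have hc : (Fintype.card H : F) ≠ 0 := by
    rw [Nat.cast_ne_zero]
    exact Fintype.card_ne_zero
  refine ⟨fun x => ?_, fun x hx => ?_⟩
  · rw [prS_apply]
    refine Submodule.smul_mem _ _ ⟨fun k hk g => ?_, ?_⟩
    · have h1 : cj k (∑ h : H, cj (h : Γ) x * ε) = ∑ h : H, cj (h : Γ) x * ε := by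
        rw [← cjL_apply, map_sum]
        simp only [cjL_apply, cj_mul, cj_cj, hε.cj]
        exact Fintype.sum_equiv (Equiv.mulLeft (⟨k, hk⟩ : H)) _ _ (fun h => rfl)
      rw [cj_eq_iff, comm_single_iff] at h1
      exact h1 g
    · rw [Finset.sum_mul]
      simp only [mul_assoc, hεε]
  · obtain ⟨h1, h2⟩ := hx
    rw [prS_apply]
    have h3 : ∀ h : H, cj (h : Γ) x * ε = x := by
      intro h
      have : cj (h : Γ) x = x := by
        rw [cj_eq_iff, comm_single_iff]
        exact h1 h h.2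
      rw [this, h2]
    simp only [h3]
    rw [Finset.sum_const, Finset.card_univ, ← Nat.cast_smul_eq_nsmul F, smul_smul,
      inv_mul_cancel₀ hc, one_smul]

theorem isProj_prA (H : Subgroup Γ) [H.Normal] {ε : MonoidAlgebra F Γ} (hε : Inv ε)
    (hεH : Supp H ε) (hεε : ε * ε = ε) : LinearMap.IsProj (AA H ε) (prA H ε) := by
  classical
  have hc : (Fintype.card Γ : F) ≠ 0 := by
    rw [Nat.cast_ne_zero]
    exact Fintype.card_ne_zero
  refine ⟨fun x => ?_, fun x hx => ?_⟩
  · rw [prA_apply]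
    refine Submodule.smul_mem _ _ ⟨inv_of_cj fun k => ?_, ?_, ?_⟩
    · rw [← cjL_apply, map_sum]
      simp only [cjL_apply, cj_mul, cj_cj, hε.cj]
      exact Fintype.sum_equiv (Equiv.mulLeft k) _ _ (fun h => rfl)
    · refine Supp.sum _ _ fun u _ => Supp.mul (Supp.cj (fun g hg => ?_) u) hεH
      exact coeff_resL_not_mem x hg
    · rw [Finset.sum_mul]
      simp only [mul_assoc, hεε]
  · obtain ⟨h1, h2, h3⟩ := hx
    have hres : resL H x = x := by
      apply ext_coeff
      intro g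
      by_cases hg : g ∈ H
      · rw [coeff_resL_mem x hg]
      · rw [coeff_resL_not_mem x hg, h2 g hg]
    rw [prA_apply, hres]
    simp only [h1.cj, h3]
    rw [Finset.sum_const, Finset.card_univ, ← Nat.cast_smul_eq_nsmul F, smul_smul,
      inv_mul_cancel₀ hc, one_smul]

theorem trace_prS (H : Subgroup Γ) [Fintype H] (ε : MonoidAlgebra F Γ) :
    LinearMap.trace F _ (prS H ε) =
      (Fintype.card H : F)⁻¹ * ∑ g : Γ, ∑ h : H, ε.coeff (h * g⁻¹ * (h : Γ)⁻¹ * g) := by
  rw [trace_eq, Finset.mul_sum]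
  refine Finset.sum_congr rfl fun g _ => ?_
  rw [prS_apply, coeff_smul_apply, coeff_sum, Finsupp.coe_finsetSum, Finset.sum_apply,
    smul_eq_mul]
  congr 1
  refine Finset.sum_congr rfl fun h _ => ?_
  rw [cj_single, coeff_single_mul_apply, one_mul]
  congr 1
  group

theorem trace_prA (H : Subgroup Γ) [Fintype H] (ε : MonoidAlgebra F Γ) :
    LinearMap.trace F _ (prA H ε) =
      (Fintype.card Γ : F)⁻¹ * ∑ g : H, ∑ u : Γ, ε.coeff (u * (g : Γ)⁻¹ * u⁻¹ * g) := by
  classical
  rw [trace_eq]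
  have h1 : ∀ g : Γ, (prA H ε (single g 1)).coeff g = if g ∈ H then
      (Fintype.card Γ : F)⁻¹ * ∑ u : Γ, ε.coeff (u * g⁻¹ * u⁻¹ * g) else 0 := by
    intro g
    rw [prA_apply, coeff_smul_apply, coeff_sum, Finsupp.coe_finsetSum, Finset.sum_apply,
      smul_eq_mul]
    by_cases hg : g ∈ H
    · rw [if_pos hg]
      congr 1
      refine Finset.sum_congr rfl fun u _ => ?_
      have : resL H (single g 1 : MonoidAlgebra F Γ) = single g 1 := by
        apply ext_coeff
        intro k
        by_cases hk : k ∈ H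
        · rw [coeff_resL_mem _ hk]
        · rw [coeff_resL_not_mem _ hk, coeff_single, Finsupp.single_apply, if_neg]
          rintro rfl
          exact hk hg
      rw [this, cj_single, coeff_single_mul_apply, one_mul]
      congr 1
      group
    · rw [if_neg hg]
      have : resL H (single g 1 : MonoidAlgebra F Γ) = 0 := by
        apply ext_coeff
        intro k
        by_cases hk : k ∈ H
        · rw [coeff_resL_mem _ hk, coeff_single, Finsupp.single_apply, if_neg]
          · simp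
          · rintro rfl
            exact hg hk
        · rw [coeff_resL_not_mem _ hk]
          simp
      rw [this, Finset.sum_eq_zero, mul_zero]
      intro u _
      rw [← cjL_apply, map_zero, zero_mul]
      simp
  rw [Finset.sum_congr rfl (fun g _ => h1 g), Finset.mul_sum, ← Finset.sum_filter]
  symm
  refine Finset.sum_bij' (fun g _ => (g : Γ)) (fun g hg => ⟨g, (Finset.mem_filter.1 hg).2⟩)
    ?_ ?_ ?_ ?_ ?_
  · intro g _
    simp
  · intro g _
    simp
  · intro g _
    rfl
  · intro g _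
    rfl
  · intro g _
    rfl

/-- The trace identity. -/
theorem finrank_char_zero (H : Subgroup Γ) [H.Normal] {ε : MonoidAlgebra F Γ} (hε : Inv ε)
    (hεH : Supp H ε) (hεε : ε * ε = ε) :
    Nat.card H * Module.finrank F (SS H ε) = Nat.card Γ * Module.finrank F (AA H ε) := by
  classical
  haveI : Module.Finite F (MonoidAlgebra F Γ) :=
    Module.Finite.of_basis (Module.Basis.ofRepr (coeffLinearEquiv F))
  have h1 := (isProj_prS H hε hεε).trace
  have h2 := (isProj_prA H hε hεH hεε).trace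
  rw [trace_prS] at h1
  rw [trace_prA] at h2
  have hc : (Fintype.card Γ : F) ≠ 0 := by
    rw [Nat.cast_ne_zero]
    exact Fintype.card_ne_zero
  have hc' : (Fintype.card H : F) ≠ 0 := by
    rw [Nat.cast_ne_zero]
    exact Fintype.card_ne_zero
  have h3 : ∑ g : Γ, ∑ h : H, ε.coeff (h * g⁻¹ * (h : Γ)⁻¹ * g) =
      ∑ g : H, ∑ u : Γ, ε.coeff (u * (g : Γ)⁻¹ * u⁻¹ * g) := by
    rw [Finset.sum_comm]
    refine Fintype.sum_equiv (Equiv.inv H) _ _ fun h => ?_
    refine Finset.sum_congr rfl fun g _ => ?_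
    rw [← hε g (h * g⁻¹ * (h : Γ)⁻¹ * g)]
    congr 1
    simp only [Equiv.inv_apply, Subgroup.coe_inv]
    group
  rw [h3] at h1
  rw [inv_mul_eq_iff_eq_mul₀ hc'] at h1
  rw [inv_mul_eq_iff_eq_mul₀ hc] at h2
  rw [Nat.card_eq_fintype_card, Nat.card_eq_fintype_card]
  have h4 := h1.symm.trans h2
  exact_mod_cast h4

end Field

end H91.Nav
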